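import Pool.Agent.Y937.PG.Stm

/-!
# PROJECT PX: assembly of the machine
-/

set_option autoImplicit false

open Finset MeasureTheory

namespace Pool.Agent.Y937.PG.Asm

open Pool.Agent.Y937.PG Pool.Agent.W406.PX

open Pool.Agent.H96R3.BC (vv cf NN TaskLagA)
open Pool.Agent.H394R3.BC (Ker)

lemma gw_nonneg (n : ℕ) : 0 ≤ gw n := by
  unfold gw; split_ifs <;> positivity

theorem machine (hMom : TaskMom) (hMss : TaskMss) (hBlz : Blz) (hFlz : Flz) (hLin : TaskLin) (hSrc : TaskSrc)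
    (hFix : TaskFix) (hTh : TaskTheta) (hBdd : TaskBdd) (hG : GeomG) (hS : SumsG) (hSml : SmlG)
    (hMass : TaskMass) (hLag : TaskLagA) (hPr : TaskPr) (hW : WtsG) : MachineG := by
  obtain ⟨q1, hG1⟩ := hG
  obtain ⟨q2, hS1⟩ := hS ⟨q1, hG1⟩
  obtain ⟨q3, hM1⟩ := hSml ⟨q1, hG1⟩ hMass
  obtain ⟨q4, hW1⟩ := hW hLag hPr ⟨q1, hG1⟩
  refine ⟨max (max q1 q2) (max (max q3 q4) 8), fun q hq Q hQ m hm ε hε => ?_⟩
  have hq1 : q1 ≤ q := by omega
  have hq2 : q2 ≤ q := by omega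
  have hq3 : q3 ≤ q := by omega
  have hq4 : q4 ≤ q := by omega
  have hq8 : 8 ≤ q := by omega
  have hQ8 : 8 ≤ Q := by omega
  obtain ⟨C, hC, JW, hW2⟩ := hW1 q hq4 Q hQ
  have hε' : 0 < min ε (1 / 2) := lt_min hε (by norm_num)
  obtain ⟨JS, hS2⟩ := hS1 q hq2 Q hQ m hm
  obtain ⟨JM, hM2⟩ := hM1 q hq3 Q hQ C (min ε (1 / 2)) hC hε'
  obtain ⟨C1, hC1, JG, hG2⟩ := hG1 q hq1 Q hQ 1 le_rfl
  obtain ⟨JF, hJF⟩ := exists_nat_gt (C1 * (300 * 2 ^ (3 * Q + 2)))
  refine ⟨max (max JW JS) (max (max JM JG) (max JF 16)), fun j₁ j' hj' hpow b hb s hs => ?_⟩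
  have h1 : JW ≤ j' := by omega
  have h2 : JS ≤ j' := by omega
  have h3 : JM ≤ j' := by omega
  have h4 : JG ≤ j' := by omega
  have h5 : JF ≤ j' := by omega
  have h6 : 16 ≤ j' := by omega
  obtain ⟨hjj, ⟨hf1, hf2⟩, hG3⟩ := hG2 j₁ j' h4 hpow b hb
  obtain ⟨w, hwc, hws, hwb⟩ := hW2 j₁ j' h1 hpow b hb
  obtain ⟨hA, hB, hrA, hrB⟩ := hS2 j₁ j' h2 hpow b hb
  have hM3 := hM2 j₁ j' h3 hpow b hb
  set B : ℕ → ℕ := fun i => b (j₁ + i) with hBdef
  have hj1R : (16:ℝ) ≤ j₁ := by exact_mod_cast h6.trans hjj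
  have hfirst : vv Q j' (b j₁) - 1 ≤ 1 / (300 * 2 ^ (3 * Q + 2)) := by
    have e1 : C1 / (j₁ : ℝ) ≤ 1 / (300 * 2 ^ (3 * Q + 2)) := by
      rw [div_le_div_iff₀ (by linarith) (by positivity), one_mul]
      have : (JF : ℝ) ≤ j₁ := by exact_mod_cast h5.trans hjj
      linarith
    linarith
  have hsys : Sys Q j' B w (min ε (1 / 2)) (fun i => C * Real.log ((j₁ + i : ℕ) : ℝ) / ((j₁ + i : ℕ) : ℝ) ^ (2 * q - 1)) := by
    refine
      { hQ := hQ8
        hj := h6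
        hε := ⟨hε', min_le_right _ _⟩
        low := ?_
        mono := ?_
        ratio := ?_
        first := ?_
        wcont := hwc
        wsupp := hws
        wbd := ?_
        wmom := ?_
        small := ?_
        Hle := ?_
        sumA := hA
        sumB := hB }
    · rw [hpow]
      exact (hb j₁ le_rfl).1
    · exact strictMono_nat_of_lt_succ fun i => (hG3 (j₁ + i) (by omega)).1
    · intro i
      exact (hG3 (j₁ + i) (by omega)).2.2.2.1
    · have e2 : vv Q j' (b j₁) ≤ 2 := by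
        have : (1:ℝ) / (300 * 2 ^ (3 * Q + 2)) ≤ 1 := by
          rw [div_le_one (by positivity)]
          have : (1:ℝ) ≤ 2 ^ (3 * Q + 2) := one_le_pow₀ (by norm_num)
          linarith
        linarith
      refine ⟨e2, ?_⟩
      show vv Q j' (b j₁) ^ (3 * Q + 2) * (vv Q j' (b j₁) - 1) ≤ 1 / 300
      calc vv Q j' (b j₁) ^ (3 * Q + 2) * (vv Q j' (b j₁) - 1)
          ≤ 2 ^ (3 * Q + 2) * (1 / (300 * 2 ^ (3 * Q + 2))) := by
            apply mul_le_mul (pow_le_pow_left₀ (by linarith) e2 _) hfirst (by linarith) (by positivity)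
        _ = 1 / 300 := by field_simp
    · intro i p hp u hu1 hu2
      exact (hwb (j₁ + i) (by omega) u hu1 hu2).1 p hp
    · intro i u hu1 hu2 P hP
      exact (hwb (j₁ + i) (by omega) u hu1 hu2).2 P hP
    · intro i p hp hpp
      exact (hM3 (j₁ + i) (by omega)).1 p hp hpp
    · intro i
      exact (hM3 (j₁ + i) (by omega)).2
  have hsrc : SrcOK Q j' m B s :=
    { hm := hm
      supp := hs.supp
      bd := hs.bd
      mom := hs.mom
      sumA := hrA
      sumB := hrB }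
  obtain ⟨x, f, hO⟩ := hFix hMss hFlz hLin hSrc Q j' m B w _ _ hsys s hsrc
  have hT := hTh hBlz hSrc Q j' m B w _ _ hsys s x f hsrc hO
  obtain ⟨C', hC'⟩ := hBdd hMom hMss Q j' m B w _ _ hsys s x f hsrc (fun i => hs.cell (j₁ + i) (by omega)) hO
  refine ⟨x, hO.xsupp, fun n => (hO.xbd n).trans (mul_le_mul_of_nonneg_right (min_le_left _ _) (gw_nonneg n)), hT,
    C', fun j hj => ?_⟩
  have := hC' (j - j₁)
  have e : B (j - j₁) = b j := by
    show b (j₁ + (j - j₁)) = b j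
    congr 1
    omega
  rwa [e] at this

end Pool.Agent.Y937.PG.Asm
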