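import Pool.Agent.Y937.PG.Stm
import Pool.Agent.W406.PX.End

/-!
# Products of `k` error terms: from the summatory functions to the elements of the Selberg class
-/

set_option autoImplicit false

open Finset MeasureTheory

namespace Pool.Agent.Y937.PG.End

open Pool.Agent.W406.PX.End (sel err_eq)
open Pool.Agent.W406.PX
open Pool.Agent.H96R3.BC (vv cf)
open Pool.Agent.H13R3.EM (Sel)

/-- for every `k ≥ 2`, all degrees `8 Q_j` with `Q_j ≥ q₀` and both signs: entire real elements of the Selberg class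
whose product of error terms is bounded on the given side -/
def StrongG : Prop := ∃ q₀ : ℕ, ∀ k : ℕ, 2 ≤ k → ∀ Q : Fin k → ℕ, (∀ i, q₀ ≤ Q i) → ∀ σ : ℝ, (σ = 1 ∨ σ = -1) →
  ∃ F : Fin k → Sel, (∀ i, (F i).deg = ((8 * Q i : ℕ) : ℝ) ∧ (F i).m0 = 0 ∧ (∀ n : ℕ, 1 ≤ n → ((F i).a n).im = 0) ∧
    ∀ x : ℝ, ((F i).err x).im = 0) ∧
    ∃ C : ℝ, ∀ x : ℝ, -C ≤ σ * (∏ i, (F i).err x).re

theorem strong_of (h : FinG) : StrongG := by
  obtain ⟨q₀, h⟩ := h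
  refine ⟨max q₀ 1, fun k hk Q hQ σ hσ => ?_⟩
  obtain ⟨y, j, hj, hy, hT, C, hC⟩ := h k hk Q (fun i => (le_max_left _ _).trans (hQ i)) σ hσ
  choose F h0 hd ha using fun i => sel (Q := Q i) (j' := j i) (y := y i) ((le_max_right _ _).trans (hQ i)) (hj i)
    (hy i) (hT i)
  have herr : ∀ i, ∀ x : ℝ, (F i).err x = ((∑ n ∈ Icc 1 ⌊x⌋₊, cf (y i) n : ℝ) : ℂ) :=
    fun i x => err_eq (h0 i) (ha i) x
  refine ⟨F, fun i => ⟨?_, h0 i, ?_, ?_⟩, |C|, ?_⟩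
  · rw [hd i]; push_cast; ring
  · intro n hn
    rw [ha i n hn]
    exact Complex.ofReal_im _
  · intro x
    rw [herr i x]
    exact Complex.ofReal_im _
  · intro x
    have h1 : (∏ i, (F i).err x).re = ∏ i, ∑ n ∈ Icc 1 ⌊x⌋₊, cf (y i) n := by
      rw [prod_congr rfl fun i _ => herr i x, ← Complex.ofReal_prod, Complex.ofReal_re]
    rw [h1]
    rcases Nat.eq_zero_or_pos ⌊x⌋₊ with h | h
    · rw [h]
      have h2 : ∏ i : Fin k, ∑ n ∈ Icc 1 0, cf (y i) n = 0 := by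
        refine prod_eq_zero (mem_univ (⟨0, by omega⟩ : Fin k)) ?_
        simp
      rw [h2, mul_zero]
      have := abs_nonneg C
      linarith
    · have := hC ⌊x⌋₊ h
      have := le_abs_self C
      linarith

/-- the assertion of Q1 for `k` and the degrees `d` -/
def Q1At (k : ℕ) (d : Fin k → ℕ) : Prop := ∀ F : Fin k → Sel,
  (∀ j, (F j).deg = (d j : ℝ)) → (∀ j, ∀ n : ℕ, 1 ≤ n → ((F j).a n).im = 0) →
  ∃ δ c T₀ : ℝ, 0 < δ ∧ δ < 1 ∧ 0 < c ∧ ∀ T : ℝ, T₀ ≤ T → ∃ x₁ ∈ Set.Icc T (T + T ^ δ), ∃ x₂ ∈ Set.Icc T (T + T ^ δ),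
    c * T ^ (∑ j, ((d j : ℝ) - 1) / (2 * (d j : ℝ))) < (∏ j, (F j).err x₁).re ∧
    (∏ j, (F j).err x₂).re < -(c * T ^ (∑ j, ((d j : ℝ) - 1) / (2 * (d j : ℝ))))

/-- one-sided boundedness excludes large values of both signs -/
theorem not_both {k : ℕ} (hk : 2 ≤ k) {d : Fin k → ℕ} (hd : ∀ j, 2 ≤ d j) {P : ℝ → ℝ} {σ : ℝ}
    (hσ : σ = 1 ∨ σ = -1) (hP : ∃ C : ℝ, ∀ x : ℝ, -C ≤ σ * P x) :
    ¬ ∃ δ c T₀ : ℝ, 0 < δ ∧ δ < 1 ∧ 0 < c ∧ ∀ T : ℝ, T₀ ≤ T →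
      ∃ x₁ ∈ Set.Icc T (T + T ^ δ), ∃ x₂ ∈ Set.Icc T (T + T ^ δ),
        c * T ^ (∑ j, ((d j : ℝ) - 1) / (2 * (d j : ℝ))) < P x₁ ∧
        P x₂ < -(c * T ^ (∑ j, ((d j : ℝ) - 1) / (2 * (d j : ℝ)))) := by
  rintro ⟨δ, c, T₀, hδ, hδ1, hc, hT⟩
  obtain ⟨C, hC⟩ := hP
  set s : ℝ := ∑ j, ((d j : ℝ) - 1) / (2 * (d j : ℝ)) with hs
  have hs0 : 0 < s := by
    have : Nonempty (Fin k) := ⟨⟨0, by omega⟩⟩
    refine sum_pos (fun j _ => ?_) univ_nonempty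
    have h2 : (2:ℝ) ≤ d j := by exact_mod_cast hd j
    exact div_pos (by linarith) (by linarith)
  have ht : Filter.Tendsto (fun T : ℝ => c * T ^ s) Filter.atTop Filter.atTop :=
    (tendsto_rpow_atTop hs0).const_mul_atTop hc
  obtain ⟨T, hT1, hT2⟩ := ((ht.eventually_ge_atTop C).and (Filter.eventually_ge_atTop T₀)).exists
  obtain ⟨x₁, _, x₂, _, hx1, hx2⟩ := hT T hT2
  rcases hσ with h | h
  · have := hC x₂
    rw [h] at this
    linarith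
  · have := hC x₁
    rw [h] at this
    linarith

end Pool.Agent.Y937.PG.End
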