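import Pool.Agent.Y937.PG.Stm
import Pool.Agent.W406.PX.Fin

/-!
# Products of `k` error terms: the final inequality
-/

set_option autoImplicit false

open Finset MeasureTheory

namespace Pool.Agent.Y937.PG.Fin

open Pool.Agent.W406.PX
open Pool.Agent.H96R3.BC (vv cf)
open Pool.Agent.W406.PX.Fin (gwn gw_le_one cf_one cf_low sys_err)

lemma pat_sq (τ : Fin 3) (t : ℕ) : pat τ t = 1 ∨ pat τ t = -1 := by
  unfold pat
  split_ifs
  · exact neg_one_pow_eq_or ℝ t
  · exact neg_one_pow_eq_or ℝ _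
  · exact neg_one_pow_eq_or ℝ _

lemma pat_zero_sq (t : ℕ) : pat 0 t * pat 0 t = 1 := by
  rcases pat_sq 0 t with h | h <;> rw [h] <;> norm_num

lemma pat_three (t : ℕ) : pat 0 t * (pat 1 t * pat 2 t) = 1 := by
  have h0 : pat 0 t = (-1) ^ t := by simp [pat]
  have h1 : pat 1 t = (-1) ^ (t / 2) := by simp [pat]
  have h2 : pat 2 t = (-1) ^ ((t + 1) / 2) := by
    unfold pat
    rw [if_neg (by decide), if_neg (by decide)]
  have h3 : t / 2 + (t + 1) / 2 = t := by omega
  rw [h0, h1, h2, ← pow_add, h3, ← pow_add, ← two_mul, pow_mul]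
  norm_num

/-- the patterns -/
lemma exists_tau : ∀ k : ℕ, 2 ≤ k → ∃ τ : Fin k → Fin 3, ∀ t, ∏ i, pat (τ i) t = 1 := by
  intro k
  induction k using Nat.strong_induction_on with
  | _ k ih =>
    intro hk
    by_cases h2 : k = 2
    · subst h2
      refine ⟨fun _ => 0, fun t => ?_⟩
      rw [Fin.prod_univ_two]
      exact pat_zero_sq t
    · by_cases h3 : k = 3
      · subst h3
        refine ⟨![0, 1, 2], fun t => ?_⟩
        rw [Fin.prod_univ_three]
        have := pat_three t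
        rw [← mul_assoc] at this
        exact this
      · obtain ⟨l, rfl⟩ : ∃ l, k = l + 2 := ⟨k - 2, by omega⟩
        obtain ⟨τ, hτ⟩ := ih l (by omega) (by omega)
        refine ⟨Fin.cons 0 (Fin.cons 0 τ), fun t => ?_⟩
        rw [Fin.prod_univ_succ, Fin.prod_univ_succ]
        simp only [Fin.cons_zero, Fin.cons_succ]
        rw [hτ t, mul_one]
        exact pat_zero_sq t

/-- the patterns with the signs -/
lemma exists_sign {k : ℕ} (hk : 2 ≤ k) {σ : ℝ} (hσ : σ = 1 ∨ σ = -1) :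
    ∃ (τ : Fin k → Fin 3) (g : Fin k → ℝ), (∀ i, g i = 1 ∨ g i = -1) ∧ ∀ t, ∏ i, (g i * pat (τ i) t) = σ := by
  obtain ⟨τ, hτ⟩ := exists_tau k hk
  obtain ⟨l, rfl⟩ : ∃ l, k = l + 1 := ⟨k - 1, by omega⟩
  refine ⟨τ, Fin.cons σ (fun _ => 1), ?_, ?_⟩
  · intro i
    refine Fin.cases ?_ ?_ i
    · simpa using hσ
    · intro i
      left
      simp
  · intro t
    rw [prod_mul_distrib, hτ t, Fin.prod_univ_succ]
    simp

/-- pure inequality -/
lemma fin_ineq {k : ℕ} {c₀ C' M : ℝ} {A S e : Fin k → ℝ} (hc : 0 < c₀) (hC' : 0 ≤ C') (hM : 0 ≤ M)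
    (hc1 : c₀ ≤ 1)
    (he : ∀ i, e i = 1 ∨ e i = -1) (h1 : ∀ i, |A i - S i| ≤ C' + c₀ / 4 * M)
    (hS : ∀ i, c₀ * M ≤ e i * S i) (hS2 : ∀ i, |S i| ≤ M / 2) :
    -(C' + 4 * C' / (3 * c₀)) ^ k ≤ ∏ i, (e i * A i) := by
  have hR : 0 ≤ C' + 4 * C' / (3 * c₀) := by positivity
  have hlow : ∀ i, -C' + 3 * c₀ / 4 * M ≤ e i * A i := by
    intro i
    have e1 := abs_le.1 (h1 i)
    have e2 := hS i
    rcases he i with h | h
    · rw [h] at e2 ⊢
      linarith [e1.1]
    · rw [h] at e2 ⊢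
      linarith [e1.2]
  have hup : ∀ i, |A i| ≤ C' + M := by
    intro i
    have e1 := h1 i
    have e2 := hS2 i
    have e3 : A i = (A i - S i) + S i := by ring
    rw [e3]
    refine (abs_add_le _ _).trans ?_
    nlinarith
  by_cases hpos : ∀ i, 0 ≤ e i * A i
  · have := prod_nonneg fun i (_ : i ∈ (univ : Finset (Fin k))) => hpos i
    have h3 := pow_nonneg hR k
    linarith
  · push Not at hpos
    obtain ⟨i₀, hi₀⟩ := hpos
    have hMle : 3 * c₀ / 4 * M ≤ C' := by
      have := hlow i₀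
      linarith
    have hM2 : M ≤ 4 * C' / (3 * c₀) := by
      rw [le_div_iff₀ (by positivity)]
      nlinarith
    have g1 : ∀ i, |e i * A i| ≤ C' + 4 * C' / (3 * c₀) := by
      intro i
      have h5 : |e i * A i| = |A i| := by
        rw [abs_mul]
        rcases he i with h | h <;> rw [h] <;> simp
      rw [h5]
      exact (hup i).trans (by linarith)
    have g3 : |∏ i, (e i * A i)| ≤ (C' + 4 * C' / (3 * c₀)) ^ k := by
      rw [abs_prod]
      refine (prod_le_prod (fun i _ => abs_nonneg _) (fun i _ => g1 i)).trans (le_of_eq ?_)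
      rw [prod_const, card_univ, Fintype.card_fin]
    exact (abs_le.1 g3).1

lemma frc_mul {q j₁ m Q j' : ℕ} {b : ℕ → ℕ} {s : ℕ → ℝ} (h : Frc q j₁ m Q j' b s) {g : ℝ} (hg : g = 1 ∨ g = -1) :
    Frc q j₁ m Q j' b (fun n => g * s n) := by
  refine ⟨?_, ?_, ?_, ?_⟩
  · intro n hn
    exact h.supp n (fun h0 => hn (by rw [h0, mul_zero]))
  · intro n
    rw [abs_mul]
    have : |g| = 1 := by rcases hg with h | h <;> rw [h] <;> simp
    rw [this, one_mul]
    exact h.bd n
  · intro j hj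
    rw [← mul_sum, h.cell j hj, mul_zero]
  · intro G P hP
    have := h.mom G P hP
    have e1 : ∀ n ∈ Ioc (b (j₁ + m * G)) (b (j₁ + m * (G + 1))),
        g * s n * (vv Q j' n) ^ 2 * P.eval (vv Q j' n) = g * (s n * (vv Q j' n) ^ 2 * P.eval (vv Q j' n)) := by
      intro n _
      ring
    rw [sum_congr rfl e1, ← mul_sum, this, mul_zero]

theorem task (hGood : Good) (hForce : ForceG) (hMach : MachineG) : FinG := by
  obtain ⟨qG, hG⟩ := hGood
  obtain ⟨qF, hF⟩ := hForce
  obtain ⟨qM, hM⟩ := hMach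
  set q := max (max qG qF) (max qM 8) with hqdef
  have hqG : qG ≤ q := by omega
  have hqF : qF ≤ q := by omega
  have hqM : qM ≤ q := by omega
  have hq8 : 8 ≤ q := by omega
  have hq1 : 1 ≤ q := by omega
  refine ⟨q, fun k hk Q hQ σ hσ => ?_⟩
  clear_value q
  have : Nonempty (Fin k) := ⟨⟨0, by omega⟩⟩
  obtain ⟨τ, g, hg, hprod⟩ := exists_sign hk hσ
  set r := 4 * (univ.sup Q) + 8 with hr
  have hrQ : ∀ i, 4 * Q i + 8 ≤ r := by
    intro i
    have := Finset.le_sup (f := Q) (mem_univ i)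
    omega
  choose c hc JF hF1 using fun i => hF q hqF (Q i) (hQ i) r (hrQ i)
  obtain ⟨i₀, hi₀⟩ := Finite.exists_min c
  set c₀ := min (c i₀) 1 with hc₀
  have hc₀p : 0 < c₀ := lt_min (hc i₀) one_pos
  have hc₀1 : c₀ ≤ 1 := min_le_right _ _
  have hc₀c : ∀ i, c₀ ≤ c i := fun i => (min_le_left _ _).trans (hi₀ i)
  obtain ⟨JG, hG1⟩ := hG q hqG (8 / c₀) (by positivity)
  have hεp : 0 < c₀ / 8 := by positivity
  choose JM hM1 using fun i => hM q hqM (Q i) (hQ i) (2 * r) (by omega) (c₀ / 8) hεp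
  set t := max (max (univ.sup JF) JG) (max (univ.sup JM) 3) with ht
  have ht3 : 3 ≤ t := by omega
  have hJF : ∀ i, JF i ≤ t := by
    intro i
    have := Finset.le_sup (f := JF) (mem_univ i)
    omega
  have hJM : ∀ i, JM i ≤ t := by
    intro i
    have := Finset.le_sup (f := JM) (mem_univ i)
    omega
  have hJG : JG ≤ t := by omega
  clear_value t
  have hQ1 : ∀ i, 1 ≤ Q i := fun i => hq1.trans (hQ i)
  have hP1 : 1 ≤ ∏ i, Q i := Nat.one_le_iff_ne_zero.2 (prod_ne_zero_iff.2 fun i _ => by have := hQ1 i; omega)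
  have hE1 : ∀ i, 1 ≤ ∏ l ∈ univ.erase i, Q l := fun i =>
    Nat.one_le_iff_ne_zero.2 (prod_ne_zero_iff.2 fun l _ => by have := hQ1 l; omega)
  set j₁ := t ^ (∏ i, Q i) with hj₁
  have htj₁ : t ≤ j₁ := Nat.le_self_pow (by omega) _
  have hj3 : 3 ≤ j₁ := by omega
  set j' : Fin k → ℕ := fun i => t ^ (q * ∏ l ∈ univ.erase i, Q l) with hj'
  have htj' : ∀ i, t ≤ j' i := by
    intro i
    refine Nat.le_self_pow ?_ _
    have := hE1 i
    positivity
  have hjj' : ∀ i, j' i ^ (2 * Q i) = j₁ ^ (2 * q) := by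
    intro i
    rw [hj', hj₁]
    simp only
    rw [← pow_mul, ← pow_mul]
    congr 1
    rw [← mul_prod_erase univ Q (mem_univ i)]
    ring
  obtain ⟨b, hb, hgb⟩ := hG1 j₁ (by omega)
  choose s0 hs0 hsc0 using fun i => hF1 i j₁ (j' i) ((hJF i).trans (htj' i)) (hjj' i) b hb (τ i)
  set s : Fin k → ℕ → ℝ := fun i n => g i * s0 i n with hs
  have hsF : ∀ i, Frc q j₁ (2 * r) (Q i) (j' i) b (s i) := fun i => frc_mul (hs0 i) (hg i)
  choose x hxs hxb hT C1 hC1 using fun i => hM1 i j₁ (j' i) ((hJM i).trans (htj' i)) (hjj' i) b hb (s i) (hsF i)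
  have hb3 : 3 ≤ b j₁ := by
    have e1 := (hb j₁ le_rfl).1
    have e2 : j₁ ≤ j₁ ^ (2 * q) := Nat.le_self_pow (by omega) _
    omega
  have hy1 : ∀ i n, |s i n + x i n| ≤ 1 := by
    intro i n
    by_cases hn : b j₁ < n
    · have e1 := (hsF i).bd n
      have e2 := hxb i n
      have e3 := gw_le_one (n := n) (by omega)
      have e4 := gwn n
      refine (abs_add_le _ _).trans ?_
      nlinarith
    · have e1 : s i n = 0 := by
        by_contra h
        exact hn ((hsF i).supp n h).2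
      have e2 : x i n = 0 := by
        by_contra h
        exact hn (hxs i n h).2
      rw [e1, e2]
      simp
  have hy0 : ∀ i p, p ≤ b j₁ → s i p + x i p = 0 := by
    intro i p hp
    have e1 : s i p = 0 := by
      by_contra h
      have := ((hsF i).supp p h).2
      omega
    have e2 : x i p = 0 := by
      by_contra h
      have := (hxs i p h).2
      omega
    rw [e1, e2, add_zero]
  refine ⟨fun i n => s i n + x i n, j', fun i => ht3.trans (htj' i), hy1, hT, ?_⟩
  obtain ⟨i₁, hi₁⟩ := Finite.exists_max C1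
  set C' := max (C1 i₁) 0 + 1 with hC'
  have hC'0 : 0 ≤ C' := by positivity
  have hRk : 0 ≤ (C' + 4 * C' / (3 * c₀)) ^ k := by positivity
  refine ⟨1 + (C' + 4 * C' / (3 * c₀)) ^ k, fun N hN => ?_⟩
  by_cases hNb : N ≤ b j₁
  · -- small `N`
    have h1 : ∀ i, ∑ n ∈ Icc 1 N, cf (fun n => s i n + x i n) n = 1 := by
      intro i
      rw [Finset.sum_eq_single 1]
      · exact cf_one _
      · intro n hn hn1
        rw [mem_Icc] at hn
        exact cf_low (hy0 i) (by omega) (hn.2.trans hNb)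
      · intro h
        exact absurd (mem_Icc.2 ⟨le_rfl, hN⟩) h
    have h2 : ∏ i, ∑ n ∈ Icc 1 N, cf (fun n => s i n + x i n) n = 1 := prod_eq_one fun i _ => h1 i
    show -(1 + (C' + 4 * C' / (3 * c₀)) ^ k) ≤ σ * ∏ i, ∑ n ∈ Icc 1 N, cf (fun n => s i n + x i n) n
    rw [h2, mul_one]
    rcases hσ with h | h <;> rw [h] <;> linarith
  · push Not at hNb
    -- the cell
    have hub : ∃ j, N ≤ b (j₁ + j) := by
      refine ⟨N, ?_⟩
      have e1 := (hb (j₁ + N) (by omega)).1
      have e2 : j₁ + N ≤ (j₁ + N) ^ (2 * q) := Nat.le_self_pow (by omega) _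
      omega
    have hj1 := Nat.find_spec hub
    have hj2 := fun i => Nat.find_min hub (m := i)
    obtain ⟨l, hl⟩ : ∃ l, Nat.find hub = l + 1 := by
      refine ⟨Nat.find hub - 1, ?_⟩
      have : Nat.find hub ≠ 0 := by
        intro h
        rw [h, add_zero] at hj1
        omega
      omega
    have hlow : b (j₁ + l) ≤ N := by
      have := hj2 l (by omega)
      omega
    have hup : N ≤ b (j₁ + l + 1) := by
      rw [hl, ← add_assoc] at hj1
      exact hj1
    set j := j₁ + l with hj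
    have hjj : j₁ ≤ j := by omega
    set M := min (Gs (b j) N) (Gs N (b (j + 1))) with hM
    have hGL : 0 ≤ Gs (b j) N := sum_nonneg fun n _ => gwn n
    have hGR : 0 ≤ Gs N (b (j + 1)) := sum_nonneg fun n _ => gwn n
    have hM0 : 0 ≤ M := le_min hGL hGR
    have hK1 : 1 ≤ 8 / c₀ := by
      rw [le_div_iff₀ hc₀p]
      linarith
    have hε2 : c₀ / 8 ≤ 1 / 2 := by linarith
    have hconst : c₀ / 8 + 1 / (8 / c₀) = c₀ / 4 := by
      field_simp
      ring
    have r1 : ∀ i, |∑ n ∈ Icc 1 N, cf (fun n => s i n + x i n) n - ∑ n ∈ Ioc (b j) N, s i n| ≤ C' + c₀ / 4 * M := by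
      intro i
      have r := sys_err hq1 hK1 hεp.le hε2 hb hgb (hsF i).supp (hsF i).bd (hsF i).cell (hxs i) (hxb i) (hC1 i) hjj hlow
        hup
      rw [hconst] at r
      refine r.trans ?_
      have := (hi₁ i).trans (le_max_left _ 0)
      linarith
    have hSe : ∀ i, c₀ * M ≤ (g i * pat (τ i) ((j - j₁) % (2 * r))) * ∑ n ∈ Ioc (b j) N, s i n := by
      intro i
      have h1 := hsc0 i j hjj N hlow hup
      have h2 : c₀ * M ≤ c i * M := mul_le_mul_of_nonneg_right (hc₀c i) hM0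
      have h3 : ∑ n ∈ Ioc (b j) N, s i n = g i * ∑ n ∈ Ioc (b j) N, s0 i n := by
        rw [hs, mul_sum]
      have h4 : g i * g i = 1 := by rcases hg i with h | h <;> rw [h] <;> norm_num
      rw [h3]
      have h5 : g i * pat (τ i) ((j - j₁) % (2 * r)) * (g i * ∑ n ∈ Ioc (b j) N, s0 i n) =
          (g i * g i) * (pat (τ i) ((j - j₁) % (2 * r)) * ∑ n ∈ Ioc (b j) N, s0 i n) := by ring
      rw [h5, h4, one_mul]
      exact h2.trans h1
    have hSl : ∀ i, |∑ n ∈ Ioc (b j) N, s i n| ≤ Gs (b j) N / 2 := by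
      intro i
      refine (abs_sum_le_sum_abs _ _).trans ((sum_le_sum fun n _ => (hsF i).bd n).trans (le_of_eq ?_))
      rw [← sum_div]
      rfl
    have hSr : ∀ i, |∑ n ∈ Ioc (b j) N, s i n| ≤ Gs N (b (j + 1)) / 2 := by
      intro i
      have e4 := (hsF i).cell j hjj
      rw [← sum_Ioc_consecutive (s i) hlow hup] at e4
      have e5 : ∑ n ∈ Ioc (b j) N, s i n = -∑ n ∈ Ioc N (b (j + 1)), s i n := by linarith
      rw [e5, abs_neg]
      refine (abs_sum_le_sum_abs _ _).trans ((sum_le_sum fun n _ => (hsF i).bd n).trans (le_of_eq ?_))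
      rw [← sum_div]
      rfl
    have hS2 : ∀ i, |∑ n ∈ Ioc (b j) N, s i n| ≤ M / 2 := by
      intro i
      rcases min_choice (Gs (b j) N) (Gs N (b (j + 1))) with h | h
      · rw [hM, h]; exact hSl i
      · rw [hM, h]; exact hSr i
    have he : ∀ i, g i * pat (τ i) ((j - j₁) % (2 * r)) = 1 ∨ g i * pat (τ i) ((j - j₁) % (2 * r)) = -1 := by
      intro i
      rcases hg i with h | h <;> rcases pat_sq (τ i) ((j - j₁) % (2 * r)) with h' | h' <;> rw [h, h'] <;> norm_num
    have key := fin_ineq (A := fun i => ∑ n ∈ Icc 1 N, cf (fun n => s i n + x i n) n) hc₀p hC'0 hM0 hc₀1 he r1 hSe hS2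
    rw [prod_mul_distrib, hprod] at key
    show -(1 + (C' + 4 * C' / (3 * c₀)) ^ k) ≤ σ * ∏ i, ∑ n ∈ Icc 1 N, cf (fun n => s i n + x i n) n
    linarith

end Pool.Agent.Y937.PG.Fin
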