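import Pool.Agent.Y937.PG.Blk

/-!
# The forcings with three patterns of signs (adapted from `Pool.Agent.W573.PX.Forcea` by helper573)
-/

set_option autoImplicit false

open Finset MeasureTheory

namespace Pool.Agent.Y937.PG.Force

open Pool.Agent.Y937.PG Pool.Agent.W406.PX Pool.Agent.Y937.PG.Blk
open Pool.Agent.H96R3.BC (vv)
open Pool.Agent.W573.PX (Ps ps_int initial ps_at cell_unique Gs_nonneg gw_nonneg mom_cell vv_mono part_nonneg)

/-- boundaries of the blocks -/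
def bet (τ : Fin 3) (r i : ℕ) : ℕ := if τ = 0 then i else if τ = 1 then 2 * i else min (2 * i - 1) (2 * r)

/-- block of a cell -/
def blk (τ : Fin 3) (t : ℕ) : ℕ := if τ = 0 then t else if τ = 1 then t / 2 else (t + 1) / 2

/-- number of blocks -/
def nb (τ : Fin 3) (r : ℕ) : ℕ := if τ = 0 then 2 * r else if τ = 1 then r else r + 1

theorem pat_eq (τ : Fin 3) (t : ℕ) : pat τ t = (-1) ^ blk τ t := by
  unfold pat blk
  split_ifs <;> rfl

theorem nb_ge (τ : Fin 3) (r : ℕ) : r ≤ nb τ r := by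
  unfold nb
  split_ifs <;> omega

theorem bet_zero (τ : Fin 3) (r : ℕ) : bet τ r 0 = 0 := by
  unfold bet
  split_ifs <;> simp

theorem bet_last (τ : Fin 3) (r : ℕ) : bet τ r (nb τ r) = 2 * r := by
  unfold bet nb
  split_ifs
  · rfl
  · rfl
  · omega

theorem bet_step (τ : Fin 3) {r i : ℕ} (hr : 1 ≤ r) (hi : i < nb τ r) :
    (bet τ r (i + 1) = bet τ r i + 1 ∨ bet τ r (i + 1) = bet τ r i + 2) ∧ bet τ r (i + 1) ≤ 2 * r := by
  unfold bet nb at *
  split_ifs at * <;> omega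

theorem blk_eq (τ : Fin 3) {r i t : ℕ} (hi : i < nb τ r) (h1 : bet τ r i ≤ t)
    (h2 : t < bet τ r (i + 1)) : blk τ t = i := by
  unfold bet nb blk at *
  split_ifs at * <;> omega

theorem blk_lt (τ : Fin 3) {r t : ℕ} (ht : t < 2 * r) : blk τ t < nb τ r := by
  unfold nb blk at *
  split_ifs at * <;> omega

theorem bet_mono (τ : Fin 3) {r : ℕ} (hr : 1 ≤ r) {i : ℕ} (hi : i ≤ nb τ r) : bet τ r i ≤ 2 * r := by
  rcases Nat.eq_zero_or_pos i with h | h
  · subst h; rw [bet_zero]; omega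
  · obtain ⟨l, rfl⟩ : ∃ l, i = l + 1 := ⟨i - 1, by omega⟩
    exact (bet_step τ hr (by omega)).2

/-- splitting of a group into blocks -/
theorem sum_blocks (τ : Fin 3) {r : ℕ} (hr : 1 ≤ r) (b : ℕ → ℕ) (J : ℕ) (hb : ∀ i, b (J + i) ≤ b (J + i + 1))
    (f : ℕ → ℝ) (N : ℕ) (hN : N ≤ nb τ r) :
    ∑ n ∈ Ioc (b J) (b (J + bet τ r N)), f n
      = ∑ i ∈ range N, ∑ n ∈ Ioc (b (J + bet τ r i)) (b (J + bet τ r (i + 1))), f n := by
  have hm : ∀ i k, b (J + i) ≤ b (J + (i + k)) := by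
    intro i k
    induction k with
    | zero => simp
    | succ k ih => exact ih.trans (hb (i + k))
  induction N with
  | zero => rw [bet_zero]; simp
  | succ N ih =>
    rw [Finset.sum_range_succ, ← ih (by omega)]
    have h1 := hm 0 (bet τ r N)
    simp only [add_zero, zero_add] at h1
    have h2 : b (J + bet τ r N) ≤ b (J + bet τ r (N + 1)) := by
      rcases (bet_step τ hr (by omega : N < nb τ r)).1 with h | h
      · rw [h]; exact hm _ 1
      · rw [h]; exact hm _ 2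
    rw [Finset.sum_Ioc_consecutive f h1 h2]

theorem task (hPr : TaskPr) (hNull : NullG) (hCF : TaskCellF) (hG : GeomG) (hG2 : Geom2G) : ForceG := by
  obtain ⟨q1, h1⟩ := id hPr
  obtain ⟨q2, h2⟩ := hCF hPr
  obtain ⟨q3, h3⟩ := hG
  refine ⟨q1 + q2 + q3 + 1, fun q hq Q hQ r hr => ?_⟩
  obtain ⟨η, hη, hP⟩ := h1 q (by omega)
  obtain ⟨c₁, hc₁, J2, hC⟩ := h2 q (by omega)
  obtain ⟨C, hC1, J3, hG⟩ := h3 q (by omega) Q hQ 1 le_rfl
  obtain ⟨J4, hG2⟩ := hG2 q (by omega) Q (by omega) (2 * r) (by omega)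
  obtain ⟨J1, hP⟩ := hP (1 / 16) (by norm_num)
  have hC0 : 0 < C := by linarith
  have hr1 : 1 ≤ r := by omega
  obtain ⟨κ₀, hκ₀⟩ : ∃ κ₀ : ℝ, κ₀ = c₁ * η ^ 2 / (1024 * C * 2 ^ (2 * q - 1)) := ⟨_, rfl⟩
  have hκ₀p : 0 < κ₀ := by rw [hκ₀]; positivity
  have hB := fun τ : Fin 3 => blocks hNull (nb τ r) (hr1.trans (nb_ge τ r)) κ₀ hκ₀p
  choose c₀ hc₀ hB using hB
  obtain ⟨cm, hcm⟩ : ∃ cm : ℝ, cm = min (c₀ 0) (min (c₀ 1) (c₀ 2)) := ⟨_, rfl⟩
  have hcmp : 0 < cm := by rw [hcm]; exact lt_min (hc₀ 0) (lt_min (hc₀ 1) (hc₀ 2))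
  have hcml : ∀ τ : Fin 3, cm ≤ c₀ τ := by
    intro τ
    rw [hcm]
    fin_cases τ
    · exact min_le_left _ _
    · exact (min_le_right _ _).trans (min_le_left _ _)
    · exact (min_le_right _ _).trans (min_le_right _ _)
  refine ⟨cm * c₁, by positivity, J1 + J2 + J3 + J4 + 2 * r + 14, fun j₁ j' hj' hjj b hb τ => ?_⟩
  obtain ⟨hle, -, hgeo⟩ := hG j₁ j' (by omega) hjj b hb
  have hbm : ∀ j, j₁ ≤ j → b j < b (j + 1) := fun j hj => (hgeo j hj).1
  have hdiff : ∀ j, j₁ ≤ j → (b (j + 1) : ℝ) - b j ≤ C * (j : ℝ) ^ (2 * q - 1) ∧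
      (j : ℝ) ^ (2 * q - 1) ≤ (b (j + 1) : ℝ) - b j := fun j hj => by
    have := hgeo j hj
    exact ⟨this.2.2.2.2.2.2.1, this.2.2.2.2.2.2.2.1⟩
  have hv : Monotone (vv Q j') := vv_mono _ _
  -- sizes of the masses
  have hb3 : ∀ j, j₁ ≤ j → b (j + 1) ≤ (j + 3) ^ (2 * q) := by
    intro j hj
    have h5 := (hb (j + 1) (by omega)).2
    have h6 : (j + 1) ^ (2 * q) ≤ (j + 3) ^ (2 * q) := Nat.pow_le_pow_left (by omega) _
    have h7 : (j + 1 + 1) ^ (2 * q) ≤ (j + 3) ^ (2 * q) := Nat.pow_le_pow_left (by omega) _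
    omega
  have hup : ∀ j, j₁ ≤ j →
      η * Gs (b j) (b (j + 1)) ≤ C * (j : ℝ) ^ (2 * q - 1) / (Real.log j) ^ 3 := by
    intro j hj
    have hjp : (3 : ℝ) ≤ j := by exact_mod_cast (by omega : 3 ≤ j)
    have hlog : 0 < Real.log j := Real.log_pos (by linarith)
    have hp : (0 : ℝ) < (j : ℝ) ^ (2 * q - 1) := by positivity
    obtain ⟨d1, d2⟩ := hdiff j hj
    have := (hP j (by omega) (b j) (b (j + 1)) (hb j hj).1 (hb3 j hj) (by linarith)).2.1
    refine this.trans ?_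
    gcongr
  have hlo : ∀ j, j₁ ≤ j → ∀ x : ℕ, (b j : ℝ) + ((b (j + 1) : ℝ) - b j) / 16 ≤ x →
      (x : ℝ) ≤ (b (j + 1) : ℝ) - ((b (j + 1) : ℝ) - b j) / 16 →
      (η / 16 * (j : ℝ) ^ (2 * q - 1) / (Real.log j) ^ 3) ≤ min (Gs (b j) x) (Gs x (b (j + 1))) := by
    intro j hj x x1 x2
    have hjp : (3 : ℝ) ≤ j := by exact_mod_cast (by omega : 3 ≤ j)
    have hlog : 0 < Real.log j := Real.log_pos (by linarith)
    have hp : (0 : ℝ) < (j : ℝ) ^ (2 * q - 1) := by positivity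
    obtain ⟨d1, d2⟩ := hdiff j hj
    have y1 : (b j : ℝ) ≤ x := by linarith
    have y2 : (x : ℝ) ≤ b (j + 1) := by linarith
    have y1' : b j ≤ x := by exact_mod_cast y1
    have y2' : x ≤ b (j + 1) := by exact_mod_cast y2
    refine le_min ?_ ?_
    · refine le_trans ?_ (hP j (by omega) (b j) x (hb j hj).1 (y2'.trans (hb3 j hj)) (by linarith)).1
      refine div_le_div_of_nonneg_right ?_ (by positivity)
      nlinarith [mul_le_mul_of_nonneg_left (show (j : ℝ) ^ (2 * q - 1) / 16 ≤ (x : ℝ) - b j by linarith) hη.le]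
    · refine le_trans ?_ (hP j (by omega) x (b (j + 1)) ((hb j hj).1.trans y1') (hb3 j hj)
        (by linarith)).1
      refine div_le_div_of_nonneg_right ?_ (by positivity)
      nlinarith [mul_le_mul_of_nonneg_left (show (j : ℝ) ^ (2 * q - 1) / 16 ≤ (b (j + 1) : ℝ) - x by linarith) hη.le]
  -- the forcing of the cells
  have hψ : ∀ j, ∃ ψ : ℕ → ℝ, j₁ ≤ j → (∀ n, |ψ n| ≤ gw n / 2) ∧
      (∀ n, n ∉ Ioc (b j) (b (j + 1)) → ψ n = 0) ∧ ∑ n ∈ Ioc (b j) (b (j + 1)), ψ n = 0 ∧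
      ∀ x : ℕ, b j ≤ x → x ≤ b (j + 1) →
        c₁ * min (Gs (b j) x) (Gs x (b (j + 1))) ≤ ∑ n ∈ Ioc (b j) x, ψ n := by
    intro j
    by_cases hj : j₁ ≤ j
    · obtain ⟨ψ, hψ⟩ := hC j (by omega) (b j) (b (j + 1)) (hb j hj).1 (hb j hj).2
        (hb (j + 1) (by omega)).1 (hb (j + 1) (by omega)).2
      exact ⟨ψ, fun _ => hψ⟩
    · exact ⟨0, fun h => absurd h hj⟩
  choose ψ hψ using hψ
  have hψ0 : ∀ j, j₁ ≤ j → ∑ n ∈ Ioc (b j) (b (j + 1)), ψ j n = 0 := fun j hj => (hψ j hj).2.2.1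
  have hψp : ∀ j, j₁ ≤ j → ∀ x, b j ≤ x → x ≤ b (j + 1) → 0 ≤ ∑ n ∈ Ioc (b j) x, ψ j n := by
    intro j hj x h1 h2
    exact part_nonneg hc₁ x ((hψ j hj).2.2.2 x h1 h2)
  have hψu : ∀ j, j₁ ≤ j → ∀ x, b j ≤ x → x ≤ b (j + 1) → ∑ n ∈ Ioc (b j) x, ψ j n ≤ Gs (b j) (b (j + 1)) := by
    intro j hj x h1 h2
    calc ∑ n ∈ Ioc (b j) x, ψ j n ≤ ∑ n ∈ Ioc (b j) x, gw n := Finset.sum_le_sum fun n _ => by
          have e1 := (hψ j hj).1 n
          have e2 := gw_nonneg n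
          have e3 := le_abs_self (ψ j n)
          linarith
      _ ≤ ∑ n ∈ Ioc (b j) (b (j + 1)), gw n := Finset.sum_le_sum_of_subset_of_nonneg
          (Finset.Ioc_subset_Ioc_right h2) fun n _ _ => gw_nonneg n
  obtain ⟨φ, hφ, -⟩ := glue j₁ b hbm ψ (fun _ => 1)
  simp only [one_mul] at hφ
  -- the coefficients of the groups
  have hgr : ∀ g, ∃ c : ℕ → ℝ, (∀ i < nb τ r, c₀ τ ≤ (-1) ^ i * c i ∧ (-1) ^ i * c i ≤ 1) ∧
      ∀ P : Polynomial ℝ, P.natDegree + 2 ≤ nb τ r →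
        ∑ i ∈ range (nb τ r), c i * ∫ u in (vv Q j' (b (j₁ + 2 * r * g + bet τ r i)))..(vv Q j'
            (b (j₁ + 2 * r * g + bet τ r (i + 1)))),
          Ps (vv Q j') (b (j₁ + 2 * r * g + bet τ r i)) (b (j₁ + 2 * r * g + bet τ r (i + 1))) φ u
            * P.eval u = 0 := by
    intro g
    have hJ : j₁ ≤ j₁ + 2 * r * g := Nat.le_add_right _ _
    generalize j₁ + 2 * r * g = J at *
    obtain ⟨h, hh, hge⟩ := hG2 j₁ j' (by omega) (by omega) b hb J hJ
    have hJ3 : (3 : ℝ) ≤ J := by exact_mod_cast (by omega : 3 ≤ J)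
    have hJ0 : (0 : ℝ) < J := by linarith
    have hlogJ : 0 < Real.log J := Real.log_pos (by linarith)
    have hlog2 : Real.log 2 ≤ Real.log J := Real.log_le_log (by norm_num) (by linarith)
    obtain ⟨UB, hUB⟩ : ∃ UB : ℝ, UB = C * (2 * (J : ℝ)) ^ (2 * q - 1) / (Real.log J) ^ 3 / η := ⟨_, rfl⟩
    obtain ⟨LB, hLB⟩ : ∃ LB : ℝ, LB = c₁ * (η / 16 * (J : ℝ) ^ (2 * q - 1) / (2 * Real.log J) ^ 3) := ⟨_, rfl⟩
    have hUB0 : 0 < UB := by rw [hUB]; positivity
    have hLB0 : 0 < LB := by rw [hLB]; positivity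
    have hjr : ∀ j, J ≤ j → j < J + 2 * r → (j : ℝ) ≤ 2 * J ∧ (J : ℝ) ≤ (j : ℝ) := by
      intro j h1 h2
      constructor
      · exact_mod_cast (by omega : j ≤ 2 * J)
      · exact_mod_cast h1
    have hGu : ∀ j, J ≤ j → j < J + 2 * r → Gs (b j) (b (j + 1)) ≤ UB := by
      intro j h1 h2
      have h5 := hup j (by omega)
      obtain ⟨h6, h7⟩ := hjr j h1 h2
      rw [hUB, le_div_iff₀ hη, mul_comm]
      refine h5.trans ?_
      have h4 : Real.log J ≤ Real.log (j : ℝ) := Real.log_le_log hJ0 h7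
      gcongr
    have hlow : ∀ j, J ≤ j → j < J + 2 * r → LB ≤ c₁ * (η / 16 * (j : ℝ) ^ (2 * q - 1) /
        (Real.log (j : ℝ)) ^ 3) := by
      intro j h1 h2
      obtain ⟨h6, h7⟩ := hjr j h1 h2
      have h4 : Real.log (j : ℝ) ≤ 2 * Real.log J := by
        have : Real.log (j : ℝ) ≤ Real.log (2 * J) := Real.log_le_log (by linarith) h6
        rw [Real.log_mul (by norm_num) hJ0.ne'] at this
        linarith
      have h5 : 0 < Real.log (j : ℝ) := Real.log_pos (by linarith)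
      rw [hLB]
      gcongr
    refine hB τ (vv Q j') (fun i => b (J + bet τ r i)) φ h LB UB hh hUB0 ?_ ?_ ?_ ?_
    · rw [hκ₀, hUB, hLB, mul_pow]
      have e2 : (2 : ℝ) ^ (2 * q - 1) ≠ 0 := by positivity
      generalize (2 : ℝ) ^ (2 * q - 1) = t at *
      apply le_of_eq
      field_simp
      ring
    · intro i hi
      obtain ⟨hs, hs2⟩ := bet_step τ hr1 hi
      rcases hs with hs | hs
      · obtain ⟨g1, g2, -⟩ := hge (bet τ r i) (by omega)
        show h ≤ vv Q j' (b (J + bet τ r (i + 1))) - vv Q j' (b (J + bet τ r i)) ∧ _ ≤ 4 * h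
        rw [hs, ← add_assoc]
        exact ⟨g1, by linarith⟩
      · obtain ⟨g1, g2, -⟩ := hge (bet τ r i) (by omega)
        obtain ⟨g3, g4, -⟩ := hge (bet τ r i + 1) (by omega)
        show h ≤ vv Q j' (b (J + bet τ r (i + 1))) - vv Q j' (b (J + bet τ r i)) ∧ _ ≤ 4 * h
        have e1 : J + bet τ r (i + 1) = J + (bet τ r i + 1) + 1 := by rw [hs]; ring
        have e2 : J + (bet τ r i + 1) = J + bet τ r i + 1 := by ring
        rw [e1]
        rw [e2] at g3 g4 ⊢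
        constructor <;> linarith
    · intro i hi u
      obtain ⟨hs, hs2⟩ := bet_step τ hr1 hi
      refine ps_bounds hbm hφ hψ0 hv (by omega) (by omega) ?_ ?_ u
      · intro j hj1 hj2 x hx1 hx2
        exact hψp j (by omega) x hx1 hx2
      · intro j hj1 hj2 x hx1 hx2
        exact (hψu j (by omega) x hx1 hx2).trans (hGu j (by omega) (by omega))
    · intro i hi
      obtain ⟨hs, hs2⟩ := bet_step τ hr1 hi
      obtain ⟨g1, g2, g3⟩ := hge (bet τ r i) (by omega)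
      refine ps_low hbm hφ hψ0 hv (by omega) (by omega) hh hLB0.le ?_ g1 ?_
      · intro j hj1 hj2 x hx1 hx2
        exact hψp j (by omega) x hx1 hx2
      · intro u hu1 hu2
        obtain ⟨x, x1, x2, x3⟩ := g3 u hu1 hu2
        have hbi : (b (J + bet τ r i) : ℝ) ≤ b (J + bet τ r i + 1) := by
          exact_mod_cast (hbm (J + bet τ r i) (by omega)).le
        have y1 : b (J + bet τ r i) ≤ x := by
          have : (b (J + bet τ r i) : ℝ) ≤ x := by linarith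
          exact_mod_cast this
        have y2 : x ≤ b (J + bet τ r i + 1) := by
          have : (x : ℝ) ≤ b (J + bet τ r i + 1) := by linarith
          exact_mod_cast this
        refine ⟨x, y1, y2, x3, ?_⟩
        refine (hlow (J + bet τ r i) (by omega) (by omega)).trans ?_
        refine le_trans ?_ ((hψ (J + bet τ r i) (by omega)).2.2.2 x y1 y2)
        exact mul_le_mul_of_nonneg_left (hlo (J + bet τ r i) (by omega) x x1 x2) hc₁.le
  choose c hc1 hc2 using hgr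
  -- the coefficient of the cell `j`
  obtain ⟨κ, hκ⟩ : ∃ κ : ℕ → ℝ, κ = fun j => c ((j - j₁) / (2 * r)) (blk τ ((j - j₁) % (2 * r))) := ⟨_, rfl⟩
  have hκ1 : ∀ j, c₀ τ ≤ pat τ ((j - j₁) % (2 * r)) * κ j ∧ pat τ ((j - j₁) % (2 * r)) * κ j ≤ 1 := by
    intro j
    have hlt : (j - j₁) % (2 * r) < 2 * r := Nat.mod_lt _ (by omega)
    have h5 := hc1 ((j - j₁) / (2 * r)) _ (blk_lt τ hlt)
    rw [pat_eq, hκ]
    exact h5
  have hpm : ∀ t, pat τ t = 1 ∨ pat τ t = -1 := by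
    intro t
    rw [pat_eq]
    exact neg_one_pow_eq_or ℝ _
  have hκ2 : ∀ j, |κ j| ≤ 1 := by
    intro j
    obtain ⟨h5, h6⟩ := hκ1 j
    have h7 := hc₀ τ
    rcases hpm ((j - j₁) % (2 * r)) with he | he
    · rw [he] at h5 h6
      rw [abs_le]; constructor <;> linarith
    · rw [he] at h5 h6
      rw [abs_le]; constructor <;> linarith
  obtain ⟨s, hs1, hs2⟩ := glue j₁ b hbm ψ κ
  have hmono : ∀ j, j₁ ≤ j → b j₁ ≤ b j := fun j hj => b_le hbm le_rfl hj
  have supp : ∀ n, s n ≠ 0 → n.Prime ∧ b j₁ < n := by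
    intro n hn
    rcases hs2 n with h | ⟨j, hj, hnj, h⟩
    · exact absurd h hn
    · have h5 : ψ j n ≠ 0 := by
        intro h6
        rw [h6, mul_zero] at h
        exact hn h
      refine ⟨?_, lt_of_le_of_lt (hmono j hj) (Finset.mem_Ioc.1 hnj).1⟩
      by_contra h6
      have h7 := (hψ j hj).1 n
      rw [gw, if_neg h6, zero_div] at h7
      exact h5 (abs_eq_zero.1 (le_antisymm h7 (abs_nonneg _)))
  have bd : ∀ n, |s n| ≤ gw n / 2 := by
    intro n
    rcases hs2 n with h | ⟨j, hj, hnj, h⟩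
    · rw [h, abs_zero]
      have := gw_nonneg n
      linarith
    · rw [h, abs_mul]
      calc |κ j| * |ψ j n| ≤ 1 * |ψ j n| := by gcongr; exact hκ2 j
        _ ≤ gw n / 2 := by rw [one_mul]; exact (hψ j hj).1 n
  have part : ∀ j, j₁ ≤ j → ∀ x ≤ b (j + 1), ∀ f : ℕ → ℝ,
      ∑ n ∈ Ioc (b j) x, s n * f n = κ j * ∑ n ∈ Ioc (b j) x, ψ j n * f n := by
    intro j hj x hx f
    rw [Finset.mul_sum]
    refine Finset.sum_congr rfl fun n hn => ?_
    rw [hs1 j n hj (Finset.mem_Ioc.2 ⟨(Finset.mem_Ioc.1 hn).1, (Finset.mem_Ioc.1 hn).2.trans hx⟩)]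
    ring
  have cell : ∀ j, j₁ ≤ j → ∑ n ∈ Ioc (b j) (b (j + 1)), s n = 0 := by
    intro j hj
    have := part j hj _ le_rfl (fun _ => 1)
    simp only [mul_one] at this
    rw [this, hψ0 j hj, mul_zero]
  -- on a block `s` is a multiple of `φ`
  have hblock : ∀ g i, i < nb τ r → ∀ n ∈ Ioc (b (j₁ + 2 * r * g + bet τ r i)) (b (j₁ + 2 * r * g + bet τ r (i + 1))),
      s n = c g i * φ n := by
    intro g i hi n hn
    obtain ⟨hst, hst2⟩ := bet_step τ hr1 hi
    rw [Finset.mem_Ioc] at hn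
    have key : ∀ t, bet τ r i ≤ t → t < bet τ r (i + 1) →
        n ∈ Ioc (b (j₁ + 2 * r * g + t)) (b (j₁ + 2 * r * g + t + 1)) → s n = c g i * φ n := by
      intro t ht1 ht2 hnt
      rw [hs1 _ n (by omega) hnt, hφ _ n (by omega) hnt]
      congr 1
      rw [hκ]
      simp only
      have e1 : j₁ + 2 * r * g + t - j₁ = t + 2 * r * g := by omega
      rw [e1, Nat.add_mul_div_left _ _ (by omega), Nat.div_eq_of_lt (by omega), zero_add,
        Nat.add_mul_mod_self_left, Nat.mod_eq_of_lt (by omega), blk_eq τ hi ht1 ht2]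
    rcases hst with hst | hst
    · rw [hst, ← add_assoc] at hn
      exact key _ le_rfl (by omega) (Finset.mem_Ioc.2 hn)
    · by_cases hx : n ≤ b (j₁ + 2 * r * g + bet τ r i + 1)
      · exact key _ le_rfl (by omega) (Finset.mem_Ioc.2 ⟨hn.1, hx⟩)
      · refine key (bet τ r i + 1) (by omega) (by omega) (Finset.mem_Ioc.2 ⟨?_, ?_⟩)
        · rw [← add_assoc]; omega
        · have e1 : j₁ + 2 * r * g + (bet τ r i + 1) + 1 = j₁ + 2 * r * g + bet τ r (i + 1) := by rw [hst]; ring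
          rw [e1]; exact hn.2
  -- moments
  have mom : ∀ g : ℕ, ∀ R : Polynomial ℝ, R.natDegree ≤ 4 * Q + 7 →
      ∑ n ∈ Ioc (b (j₁ + 2 * r * g)) (b (j₁ + 2 * r * (g + 1))), s n * R.eval (vv Q j' n) = 0 := by
    intro g R hR
    have hnb := nb_ge τ r
    have h5 := hc2 g R.derivative (by have := R.natDegree_derivative_le; omega)
    have e : j₁ + 2 * r * (g + 1) = j₁ + 2 * r * g + bet τ r (nb τ r) := by rw [bet_last]; ring
    rw [e, sum_blocks τ hr1 b (j₁ + 2 * r * g) (fun i => (hbm _ (by omega)).le) _ (nb τ r) le_rfl]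
    have h6 : ∀ i ∈ range (nb τ r),
        ∑ n ∈ Ioc (b (j₁ + 2 * r * g + bet τ r i)) (b (j₁ + 2 * r * g + bet τ r (i + 1))),
          s n * R.eval (vv Q j' n)
        = -(c g i * ∫ u in (vv Q j' (b (j₁ + 2 * r * g + bet τ r i)))..(vv Q j'
            (b (j₁ + 2 * r * g + bet τ r (i + 1)))),
          Ps (vv Q j') (b (j₁ + 2 * r * g + bet τ r i)) (b (j₁ + 2 * r * g + bet τ r (i + 1))) φ u
            * R.derivative.eval u) := by
      intro i hi
      have hi' : i < nb τ r := Finset.mem_range.1 hi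
      obtain ⟨hst, hst2⟩ := bet_step τ hr1 hi'
      have e3 : ∑ n ∈ Ioc (b (j₁ + 2 * r * g + bet τ r i)) (b (j₁ + 2 * r * g + bet τ r (i + 1))),
          s n * R.eval (vv Q j' n) = c g i * ∑ n ∈ Ioc (b (j₁ + 2 * r * g + bet τ r i))
            (b (j₁ + 2 * r * g + bet τ r (i + 1))), φ n * R.eval (vv Q j' n) := by
        rw [Finset.mul_sum]
        refine Finset.sum_congr rfl fun n hn => ?_
        rw [hblock g i hi' n hn]
        ring
      rw [e3, mom_cell _ hv _ _ _ (zero_sum hbm hφ hψ0 (by omega) (by omega)) R]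
      ring
    rw [Finset.sum_congr rfl h6, Finset.sum_neg_distrib, h5, neg_zero]
  refine ⟨s, ⟨supp, bd, cell, ?_⟩, ?_⟩
  · intro g P hP
    have h5 := mom g (Polynomial.X ^ 2 * P) (by
      refine Polynomial.natDegree_mul_le.trans ?_
      rw [Polynomial.natDegree_X_pow]
      omega)
    rw [← h5]
    refine Finset.sum_congr rfl fun n _ => ?_
    simp only [Polynomial.eval_mul, Polynomial.eval_pow, Polynomial.eval_X]
    ring
  · intro j hj x x1 x2
    obtain ⟨h5, h6⟩ := hκ1 j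
    have h7 := part j hj x x2 (fun _ => 1)
    simp only [mul_one] at h7
    have h8 := (hψ j hj).2.2.2 x x1 x2
    have h9 : 0 ≤ min (Gs (b j) x) (Gs x (b (j + 1))) := le_min (Gs_nonneg _ _) (Gs_nonneg _ _)
    rw [h7, ← mul_assoc, mul_assoc cm]
    exact mul_le_mul ((hcml τ).trans h5) h8 (by positivity) (hcmp.le.trans ((hcml τ).trans h5))

end Pool.Agent.Y937.PG.Force
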