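import Pool.Agent.Y937.PG.Stm
import Pool.Agent.W571.PX.Geom2
set_option autoImplicit false

/-!
# The boundaries in the coordinate `vv Q j'` (adapted from `Pool.Agent.W571.PX.Geom2` by helper571)
-/

open Finset Filter Topology

namespace Pool.Agent.Y937.PG.Geom2

open Pool.Agent.Y937.PG Pool.Agent.W406.PX Pool.Agent.W571.PX.Geom2
open Pool.Agent.H96R3.BC (vv)

theorem task : Geom2G := by
  intro q hq Q hQ m hm
  obtain ⟨J, hJ⟩ := exJ q m
  refine ⟨max J 4, fun j₁ j₀ hj₀ hj₁ b hb j hj => ?_⟩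
  have hj₁4 : 4 ≤ j₁ := (le_max_right _ _).trans hj₁
  have hj4 : 4 ≤ j := hj₁4.trans hj
  have hjR : (4 : ℝ) ≤ j := by exact_mod_cast hj4
  have hj0 : (0 : ℝ) < j := by linarith
  have hρ := hJ j (((le_max_left _ _).trans hj₁).trans hj)
  set k := 2 * q with hk
  have hk2 : 2 ≤ k := by omega
  set ρ : ℝ := (((j : ℝ) + m + 1) / j) ^ k with hρd
  set lo : ℝ := (j : ℝ) ^ k with hlod
  set hi : ℝ := ((j : ℝ) + m + 1) ^ k with hhid
  have hlo : 0 < lo := by positivity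
  have hhilo : hi ≤ ρ * lo := by
    rw [hρd, hlod, hhid, div_pow, div_mul_cancel₀ _ (pow_pos hj0 k).ne']
  set X : ℝ := (j₀ : ℝ) ^ (2 * Q) with hXd
  have hj₀R : (0 : ℝ) < j₀ := by exact_mod_cast (by omega : 0 < j₀)
  have hX : 0 < X := by positivity
  set s : ℝ := 1 / (4 * (Q : ℝ)) with hsd
  have hqR : (1 : ℝ) ≤ (Q : ℝ) := by exact_mod_cast hQ
  have hs0 : 0 < s := by positivity
  have hs1 : s ≤ 1 := by
    rw [hsd, div_le_one (by positivity)]
    linarith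
  set κ : ℝ := s * lo ^ (s - 1) / X ^ s with hκd
  have hκ : 0 < κ := by
    have h1 := Real.rpow_pos_of_pos hlo (s - 1)
    have h2 := Real.rpow_pos_of_pos hX s
    positivity
  set L : ℝ := k * (j : ℝ) ^ (k - 1) with hLd
  have hL8 : 8 ≤ L := by
    have h1 : (2 : ℝ) ≤ k := by exact_mod_cast hk2
    have h2 : (4 : ℝ) ≤ (j : ℝ) ^ (k - 1) := by
      calc (4 : ℝ) ≤ j := hjR
        _ = (j : ℝ) ^ 1 := (pow_one _).symm
        _ ≤ (j : ℝ) ^ (k - 1) := pow_le_pow_right₀ (by linarith) (by omega)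
    rw [hLd]
    nlinarith
  have hρ1 : 1 ≤ ρ := by
    refine one_le_pow₀ ?_
    rw [one_le_div hj0]
    have : (0 : ℝ) ≤ m := Nat.cast_nonneg m
    linarith
  -- lengths
  have hlen : ∀ t : ℕ, j ≤ t → t ≤ j + m →
      L ≤ ((t : ℝ) + 1) ^ k - (t : ℝ) ^ k ∧ ((t : ℝ) + 1) ^ k - (t : ℝ) ^ k ≤ ρ * L := by
    intro t ht1 ht2
    have htR : (j : ℝ) ≤ t := by exact_mod_cast ht1
    have htR2 : (t : ℝ) ≤ j + m := by exact_mod_cast ht2
    obtain ⟨h1, h2⟩ := len_bounds (t := (t : ℝ)) (by linarith) k (by omega)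
    constructor
    · refine le_trans ?_ h1
      rw [hLd]
      exact mul_le_mul_of_nonneg_left (pow_le_pow_left₀ hj0.le htR _) (Nat.cast_nonneg k)
    · refine h2.trans ?_
      have h3 : ((t : ℝ) + 1) ^ (k - 1) ≤ ((j : ℝ) + m + 1) ^ (k - 1) :=
        pow_le_pow_left₀ (by linarith) (by linarith) _
      have h4 : (((j : ℝ) + m + 1) / j) ^ (k - 1) ≤ ρ := by
        refine pow_le_pow_right₀ ?_ (by omega)
        rw [one_le_div hj0]
        have : (0 : ℝ) ≤ m := Nat.cast_nonneg m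
        linarith
      have h5 : ((j : ℝ) + m + 1) ^ (k - 1) = (((j : ℝ) + m + 1) / j) ^ (k - 1) * (j : ℝ) ^ (k - 1) := by
        rw [div_pow, div_mul_cancel₀ _ (pow_pos hj0 _).ne']
      have h6 : ((t : ℝ) + 1) ^ (k - 1) ≤ ρ * (j : ℝ) ^ (k - 1) := by
        refine h3.trans ?_
        rw [h5]
        exact mul_le_mul_of_nonneg_right h4 (by positivity)
      rw [hLd]
      calc (k : ℝ) * ((t : ℝ) + 1) ^ (k - 1) ≤ k * (ρ * (j : ℝ) ^ (k - 1)) :=
            mul_le_mul_of_nonneg_left h6 (Nat.cast_nonneg k)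
        _ = ρ * (k * (j : ℝ) ^ (k - 1)) := by ring
  -- the boundaries
  have hbR : ∀ t : ℕ, j ≤ t → (t : ℝ) ^ k ≤ b t ∧ 8 * (b t : ℝ) ≤ 7 * (t : ℝ) ^ k + ((t : ℝ) + 1) ^ k := by
    intro t ht
    obtain ⟨h1, h2⟩ := hb t (hj.trans ht)
    exact ⟨by exact_mod_cast h1, by exact_mod_cast h2⟩
  have hblo : ∀ t : ℕ, j ≤ t → lo ≤ b t := by
    intro t ht
    have htR : (j : ℝ) ≤ t := by exact_mod_cast ht
    exact (pow_le_pow_left₀ hj0.le htR _).trans (hbR t ht).1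
  have hbhi : ∀ t : ℕ, j ≤ t → t ≤ j + m → (b t : ℝ) ≤ hi := by
    intro t ht ht2
    have htR : (j : ℝ) ≤ t := by exact_mod_cast ht
    have htR2 : (t : ℝ) ≤ j + m := by exact_mod_cast ht2
    have h1 := (hbR t ht).2
    have h2 : (t : ℝ) ^ k ≤ hi := pow_le_pow_left₀ (by linarith) (by linarith) _
    have h3 : ((t : ℝ) + 1) ^ k ≤ hi := pow_le_pow_left₀ (by linarith) (by linarith) _
    linarith
  have hgap : ∀ t : ℕ, j ≤ t → t + 1 ≤ j + m →
      7 / 8 * L ≤ (b (t + 1) : ℝ) - b t ∧ (b (t + 1) : ℝ) - b t ≤ 9 / 8 * (ρ * L) := by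
    intro t ht ht2
    obtain ⟨h1, h2⟩ := hbR t ht
    obtain ⟨h3, h4⟩ := hbR (t + 1) (by omega)
    obtain ⟨h5, h6⟩ := hlen t ht (by omega)
    obtain ⟨h7, h8⟩ := hlen (t + 1) (by omega) ht2
    push_cast at h3 h4 h7 h8
    constructor <;> linarith
  refine ⟨13 / 16 * (κ * L), by positivity, fun i hi' => ?_⟩
  have ht1 : j ≤ j + i := by omega
  have ht2 : j + i + 1 ≤ j + m := by omega
  obtain ⟨hg1, hg2⟩ := hgap (j + i) ht1 ht2
  have hb0 := hblo (j + i) ht1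
  have hb1 := hbhi (j + i + 1) (by omega) ht2
  have hL0 : 0 < L := by linarith
  have hρL : ρ * L ≤ 14 / 13 * L := mul_le_mul_of_nonneg_right hρ hL0.le
  have hbb : (b (j + i) : ℝ) ≤ b (j + i + 1) := by linarith
  obtain ⟨hF1, hF2⟩ := Fdiff hlo hb0 hbb hb1 hs0.le hs1 hhilo hX
  rw [← hκd] at hF1 hF2
  have hv : ∀ n : ℕ, vv Q j₀ n = ((n : ℝ) / X) ^ s := by
    intro n
    rw [vv, hXd, hsd]
  rw [hv, hv]
  have hdF : 0 ≤ ((b (j + i + 1) : ℝ) / X) ^ s - ((b (j + i) : ℝ) / X) ^ s := by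
    have : ((b (j + i) : ℝ) / X) ^ s ≤ ((b (j + i + 1) : ℝ) / X) ^ s := by
      refine Real.rpow_le_rpow ?_ ?_ hs0.le
      · exact div_nonneg (Nat.cast_nonneg _) hX.le
      · exact (div_le_div_iff_of_pos_right hX).2 hbb
    linarith
  refine ⟨?_, ?_, ?_⟩
  · have h1 : κ * (7 / 8 * L) ≤ ρ * (((b (j + i + 1) : ℝ) / X) ^ s - ((b (j + i) : ℝ) / X) ^ s) :=
      (mul_le_mul_of_nonneg_left hg1 hκ.le).trans hF2
    have h2 : ρ * (((b (j + i + 1) : ℝ) / X) ^ s - ((b (j + i) : ℝ) / X) ^ s)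
        ≤ 14 / 13 * (((b (j + i + 1) : ℝ) / X) ^ s - ((b (j + i) : ℝ) / X) ^ s) :=
      mul_le_mul_of_nonneg_right hρ hdF
    linarith
  · have h1 : κ * ((b (j + i + 1) : ℝ) - b (j + i)) ≤ κ * (9 / 8 * (14 / 13 * L)) :=
      mul_le_mul_of_nonneg_left (by linarith) hκ.le
    have h2 : κ * (9 / 8 * (14 / 13 * L)) ≤ 2 * (13 / 16 * (κ * L)) := by
      have : 0 < κ * L := mul_pos hκ hL0
      nlinarith
    linarith
  · intro u hu1 hu2
    have hκL : 0 < κ * L := mul_pos hκ hL0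
    have hu0 : 0 < u := by
      have : 0 ≤ ((b (j + i) : ℝ) / X) ^ s :=
        Real.rpow_nonneg (div_nonneg (Nat.cast_nonneg _) hX.le) _
      linarith
    set y : ℝ := X * u ^ (1 / s) with hyd
    have hy0 : 0 < y := mul_pos hX (Real.rpow_pos_of_pos hu0 _)
    have hyu : (y / X) ^ s = u := by
      rw [hyd, mul_div_cancel_left₀ _ hX.ne', ← Real.rpow_mul hu0.le, one_div,
        inv_mul_cancel₀ hs0.ne', Real.rpow_one]
    have hmon : ∀ a c : ℝ, 0 ≤ a → 0 ≤ c → ((a / X) ^ s ≤ (c / X) ^ s ↔ a ≤ c) := by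
      intro a c ha hc
      rw [Real.rpow_le_rpow_iff (div_nonneg ha hX.le) (div_nonneg hc hX.le) hs0,
        div_le_div_iff_of_pos_right hX]
    have hby : (b (j + i) : ℝ) ≤ y := by
      rw [← hmon _ _ (Nat.cast_nonneg _) hy0.le, hyu]
      linarith
    have hyb : y ≤ (b (j + i + 1) : ℝ) := by
      rw [← hmon _ _ hy0.le (Nat.cast_nonneg _), hyu]
      linarith
    have h1 := (Fdiff hlo hb0 hby (hyb.trans hb1) hs0.le hs1 hhilo hX).1
    have h2 := (Fdiff hlo (hb0.trans hby) hyb hb1 hs0.le hs1 hhilo hX).1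
    rw [← hκd, hyu] at h1 h2
    have h3 : 13 / 64 * L ≤ y - b (j + i) := by
      have h4 : κ * (13 / 64 * L) ≤ κ * (y - b (j + i)) := by linarith
      exact le_of_mul_le_mul_left h4 hκ
    have h4 : 13 / 64 * L ≤ (b (j + i + 1) : ℝ) - y := by
      have h4 : κ * (13 / 64 * L) ≤ κ * ((b (j + i + 1) : ℝ) - y) := by linarith
      exact le_of_mul_le_mul_left h4 hκ
    refine ⟨⌊y⌋₊, ?_, ?_, ?_⟩
    · have h5 : y - 1 < (⌊y⌋₊ : ℝ) := Nat.sub_one_lt_floor y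
      linarith
    · have h5 : (⌊y⌋₊ : ℝ) ≤ y := Nat.floor_le hy0.le
      linarith
    · intro n
      rw [hv, Nat.le_floor_iff hy0.le, ← hmon _ _ (Nat.cast_nonneg _) hy0.le, hyu]

end Pool.Agent.Y937.PG.Geom2
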