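import Pool.Agent.Y937.PG.Stm

set_option autoImplicit false

open Finset

namespace Pool.Agent.Y937.PG.Sml

open Pool.Agent.Y937.PG Pool.Agent.W406.PX
open Pool.Agent.H96R3.BC (vv)

theorem Ebound (q Q j₁ j' j : ℕ) (hq : 4 ≤ q) (hj₁ : 1 ≤ j₁) (hjj : j₁ ≤ j)
    (he : j' ^ (2 * Q) = j₁ ^ (2 * q)) (v : ℝ) (hv : 0 ≤ v) (h1 : v ^ 2 ≤ 4 * (j : ℝ) / j₁)
    (h2 : v ^ (2 * Q) ≤ (4 * (j : ℝ) / j₁) ^ q) :
    (kp Q j' * v ^ (3 * Q + 1) / (j : ℝ) ^ (2 * q - 1)) ^ 2 ≤ 4 ^ (3 * q + 1) / j := by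
  have hj1 : (1 : ℝ) ≤ j₁ := by exact_mod_cast hj₁
  have hj : (1 : ℝ) ≤ j := by
    have : 1 ≤ j := by omega
    exact_mod_cast this
  obtain ⟨Y, hY⟩ : ∃ Y, Y = 4 * (j : ℝ) / j₁ := ⟨_, rfl⟩
  rw [← hY] at h1 h2
  have hY0 : 0 ≤ Y := by rw [hY]; positivity
  have hk : kp Q j' ^ 2 = (j₁ : ℝ) ^ (2 * q) := by
    unfold kp
    rw [← pow_mul, mul_comm Q 2]
    exact_mod_cast he
  have hvv : (v ^ (3 * Q + 1)) ^ 2 ≤ Y ^ (3 * q + 1) := by
    have e : (v ^ (3 * Q + 1)) ^ 2 = (v ^ (2 * Q)) ^ 3 * v ^ 2 := by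
      rw [← pow_mul, ← pow_mul, ← pow_add]
      congr 1
      ring
    rw [e]
    calc (v ^ (2 * Q)) ^ 3 * v ^ 2 ≤ (Y ^ q) ^ 3 * Y := by
          apply mul_le_mul _ h1 (by positivity) (by positivity)
          exact pow_le_pow_left₀ (by positivity) h2 3
      _ = Y ^ (3 * q + 1) := by
          rw [← pow_mul, ← pow_succ]
          congr 1
          ring
  have hYe : Y ^ (3 * q + 1) * (j₁ : ℝ) ^ (3 * q + 1) = 4 ^ (3 * q + 1) * (j : ℝ) ^ (3 * q + 1) := by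
    rw [← mul_pow, ← mul_pow, hY]
    congr 1
    field_simp
  have hT : (0 : ℝ) < (j : ℝ) ^ (2 * q - 1) := by positivity
  have hj10 : (0 : ℝ) < (j₁ : ℝ) ^ (3 * q + 1) := by positivity
  rw [div_pow, mul_pow, hk, div_le_div_iff₀ (by positivity) (by linarith)]
  have h3 : (j₁ : ℝ) ^ (2 * q) * (j : ℝ) ^ (3 * q + 2) ≤
      (j₁ : ℝ) ^ (3 * q + 1) * ((j : ℝ) ^ (2 * q - 1)) ^ 2 := by
    rw [← pow_mul]
    apply mul_le_mul
    · exact pow_le_pow_right₀ hj1 (by omega)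
    · exact pow_le_pow_right₀ hj (by omega)
    · positivity
    · positivity
  have h4 : ((j₁ : ℝ) ^ (2 * q) * (v ^ (3 * Q + 1)) ^ 2 * j) * (j₁ : ℝ) ^ (3 * q + 1) ≤
      (4 ^ (3 * q + 1) * ((j : ℝ) ^ (2 * q - 1)) ^ 2) * (j₁ : ℝ) ^ (3 * q + 1) := by
    calc ((j₁ : ℝ) ^ (2 * q) * (v ^ (3 * Q + 1)) ^ 2 * j) * (j₁ : ℝ) ^ (3 * q + 1)
        = ((j₁ : ℝ) ^ (2 * q) * j * (j₁ : ℝ) ^ (3 * q + 1)) * (v ^ (3 * Q + 1)) ^ 2 := by ring
      _ ≤ ((j₁ : ℝ) ^ (2 * q) * j * (j₁ : ℝ) ^ (3 * q + 1)) * Y ^ (3 * q + 1) :=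
          mul_le_mul_of_nonneg_left hvv (by positivity)
      _ = ((j₁ : ℝ) ^ (2 * q) * j) * (Y ^ (3 * q + 1) * (j₁ : ℝ) ^ (3 * q + 1)) := by ring
      _ = 4 ^ (3 * q + 1) * ((j₁ : ℝ) ^ (2 * q) * (j : ℝ) ^ (3 * q + 2)) := by rw [hYe]; ring
      _ ≤ 4 ^ (3 * q + 1) * ((j₁ : ℝ) ^ (3 * q + 1) * ((j : ℝ) ^ (2 * q - 1)) ^ 2) :=
          mul_le_mul_of_nonneg_left h3 (by positivity)
      _ = _ := by ring
  exact le_of_mul_le_mul_right h4 hj10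

theorem log_bound (δ : ℝ) (hδ : 0 < δ) : ∃ J₀ : ℕ, ∀ j : ℕ, J₀ ≤ j →
    Real.log j ^ 6 ≤ δ * j := by
  have h := (Real.isLittleO_pow_log_id_atTop (n := 6)).bound hδ
  rw [Filter.eventually_atTop] at h
  obtain ⟨a, ha⟩ := h
  refine ⟨Nat.ceil a, fun j hj => ?_⟩
  have h1 := ha j ((Nat.le_ceil a).trans (by exact_mod_cast hj))
  rw [Real.norm_eq_abs, Real.norm_eq_abs] at h1
  have h2 : |id (j : ℝ)| = j := abs_of_nonneg (Nat.cast_nonneg j)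
  rw [h2] at h1
  exact (le_abs_self _).trans h1

theorem task : SmlG := by
  rintro ⟨q₁, hG⟩ ⟨q₂, hM⟩
  refine ⟨max (max q₁ q₂) 4, fun q hq Q hQ C ε hC hε => ?_⟩
  have hq1 : q₁ ≤ q := (le_max_left _ _).trans ((le_max_left _ _).trans hq)
  have hq2 : q₂ ≤ q := (le_max_right _ _).trans ((le_max_left _ _).trans hq)
  have hq3 : 4 ≤ q := (le_max_right _ _).trans hq
  obtain ⟨C₀, hC₀, J₁, hG⟩ := hG q hq1 Q hQ 1 le_rfl
  obtain ⟨a, ha⟩ : ∃ a : ℝ, a = 2 * (q : ℝ) + 1 := ⟨_, rfl⟩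
  have ha1 : 1 ≤ a := by
    rw [ha]
    have : (0 : ℝ) ≤ q := Nat.cast_nonneg q
    linarith
  obtain ⟨s', hs'⟩ : ∃ s', s' = min 1 (ε / (16 * C * a ^ 2)) := ⟨_, rfl⟩
  have hs0 : 0 < s' := by
    rw [hs']
    exact lt_min one_pos (by positivity)
  have hs1 : s' ≤ 1 := by rw [hs']; exact min_le_left _ _
  have hs2 : 16 * C * a ^ 2 * s' ≤ ε := by
    have h1 : s' ≤ ε / (16 * C * a ^ 2) := by rw [hs']; exact min_le_right _ _
    rw [le_div_iff₀ (by positivity)] at h1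
    linarith
  obtain ⟨J₂, hM⟩ := hM q hq2 s' hs0
  obtain ⟨J₃, hL⟩ := log_bound (ε ^ 2 / ((48 * C * a ^ 2) ^ 2 * 4 ^ (3 * q + 1))) (by positivity)
  refine ⟨max (max J₁ J₂) (max J₃ 3), fun j₁ j' hj' he b hb j hj => ?_⟩
  have hJ1 : J₁ ≤ j' := (le_max_left _ _).trans ((le_max_left _ _).trans hj')
  have hJ2 : J₂ ≤ j' := (le_max_right _ _).trans ((le_max_left _ _).trans hj')
  have hJ3 : J₃ ≤ j' := (le_max_left _ _).trans ((le_max_right _ _).trans hj')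
  have hJ4 : 3 ≤ j' := (le_max_right _ _).trans ((le_max_right _ _).trans hj')
  obtain ⟨hjj', _, hGj⟩ := hG j₁ j' hJ1 he b hb
  obtain ⟨hb1, _, _, _, _, _, _, hb8, hb9⟩ := hGj j hj
  obtain ⟨_, _, _, _, hc5, hc6, _, _, _⟩ := hGj (j + 1) (by omega)
  have hj3 : (3 : ℝ) ≤ j := by
    have : 3 ≤ j := by omega
    exact_mod_cast this
  have hj1r : (3 : ℝ) ≤ j₁ := by
    have : 3 ≤ j₁ := by omega
    exact_mod_cast this
  have hlog : 1 ≤ Real.log j := by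
    rw [Real.le_log_iff_exp_le (by linarith)]
    have := Real.exp_one_lt_d9
    linarith
  obtain ⟨L, hLd⟩ : ∃ L, L = Real.log j := ⟨_, rfl⟩
  rw [← hLd] at hlog
  obtain ⟨T, hT⟩ : ∃ T, T = (j : ℝ) ^ (2 * q - 1) := ⟨_, rfl⟩
  have hT0 : 0 < T := by rw [hT]; positivity
  have hHs : Hs (j' ^ (2 * Q)) (b j) (b (j + 1)) ≤ s' * T / L ^ 3 := by
    rw [he, hT, hLd]
    apply hM j₁ (by omega) j hj _ _ (hb j hj).1
    have h1 := (hb (j + 1) (by omega)).2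
    have h2 : (j + 1) ^ (2 * q) ≤ (j + 3) ^ (2 * q) := Nat.pow_le_pow_left (by omega) _
    have h3 : (j + 1 + 1) ^ (2 * q) ≤ (j + 3) ^ (2 * q) := Nat.pow_le_pow_left (by omega) _
    omega
  have hL3 : 1 ≤ L ^ 3 := one_le_pow₀ hlog
  have hHT : Hs (j' ^ (2 * Q)) (b j) (b (j + 1)) ≤ T := by
    refine hHs.trans ?_
    rw [div_le_iff₀ (by linarith)]
    calc s' * T ≤ 1 * T := mul_le_mul_of_nonneg_right hs1 hT0.le
      _ = T * 1 := by ring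
      _ ≤ T * L ^ 3 := mul_le_mul_of_nonneg_left hL3 hT0.le
  constructor
  · intro p hp hpp
    rw [Finset.mem_Ioc] at hp
    have hp1 : 1 ≤ p := hpp.one_lt.le
    have hp0 : (1 : ℝ) < p := by exact_mod_cast hpp.one_lt
    have hlp0 : 0 < Real.log p := Real.log_pos hp0
    have hlp : Real.log p ≤ a * L := by
      have h1 : (p : ℝ) ≤ (j : ℝ) ^ (2 * q + 1) := by
        have h2 : (p : ℝ) ≤ (b (j + 1) : ℝ) := by exact_mod_cast hp.2
        exact h2.trans hb9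
      have h2 := Real.log_le_log (by linarith) h1
      rw [Real.log_pow] at h2
      rw [ha, hLd]
      push_cast at h2
      exact h2
    have hgw : 1 / (a ^ 2 * L ^ 2) ≤ gw p := by
      unfold gw
      rw [if_pos hpp]
      apply one_div_le_one_div_of_le (by positivity)
      calc Real.log p ^ 2 ≤ (a * L) ^ 2 := pow_le_pow_left₀ hlp0.le hlp 2
        _ = a ^ 2 * L ^ 2 := by ring
    obtain ⟨v, hv⟩ : ∃ v, v = vv Q j' (b (j + 1)) := ⟨_, rfl⟩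
    have hv0 : 0 ≤ v := by
      rw [hv]
      unfold vv
      exact Real.rpow_nonneg (by positivity) _
    have hYY : 2 * ((j + 1 : ℕ) : ℝ) / j₁ ≤ 4 * (j : ℝ) / j₁ := by
      apply div_le_div_of_nonneg_right _ (by linarith)
      push_cast
      linarith
    rw [← hv] at hc5 hc6 ⊢
    have hE := Ebound q Q j₁ j' j hq3 (by omega) hj he v hv0 (hc5.trans hYY)
      (hc6.trans (pow_le_pow_left₀ (by positivity) hYY q))
    rw [← hT] at hE ⊢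
    obtain ⟨E, hEd⟩ : ∃ E, E = kp Q j' * v ^ (3 * Q + 1) / T := ⟨_, rfl⟩
    rw [← hEd] at hE
    have hE0 : 0 ≤ E := by
      rw [hEd]
      unfold kp
      positivity
    have hEk : kp Q j' * v ^ (3 * Q + 1) = E * T := by
      rw [hEd]; field_simp
    -- the part of the density
    have hlb := hL j (by omega)
    rw [← hLd] at hlb
    have hj0 : (0 : ℝ) < j := by linarith
    have hE2 : (48 * C * a ^ 2 * L ^ 3 * E) ^ 2 ≤ ε ^ 2 := by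
      calc (48 * C * a ^ 2 * L ^ 3 * E) ^ 2 = (48 * C * a ^ 2) ^ 2 * L ^ 6 * E ^ 2 := by ring
        _ ≤ (48 * C * a ^ 2) ^ 2 * L ^ 6 * (4 ^ (3 * q + 1) / j) :=
            mul_le_mul_of_nonneg_left hE (by positivity)
        _ ≤ (48 * C * a ^ 2) ^ 2 * (ε ^ 2 / ((48 * C * a ^ 2) ^ 2 * 4 ^ (3 * q + 1)) * j) *
              (4 ^ (3 * q + 1) / j) := by gcongr
        _ = ε ^ 2 := by field_simp
    have hE3 : 48 * C * a ^ 2 * L ^ 3 * E ≤ ε := by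
      have h1 : 0 ≤ 48 * C * a ^ 2 * L ^ 3 * E := by positivity
      exact (pow_le_pow_iff_left₀ h1 hε.le (by norm_num)).1 hE2
    have hL0 : 0 < L := by linarith
    have hpart1 : 8 * (C * L / T) * (3 * kp Q j' * v ^ (3 * Q + 1)) ≤ (ε / 2) * (1 / (a ^ 2 * L ^ 2)) := by
      have e1 : 8 * (C * L / T) * (3 * kp Q j' * v ^ (3 * Q + 1)) = 24 * C * L * E := by
        have : 3 * kp Q j' * v ^ (3 * Q + 1) = 3 * (E * T) := by rw [← hEk]; ring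
        rw [this]
        field_simp
        ring
      rw [e1, mul_one_div, le_div_iff₀ (by positivity)]
      have e2 : 24 * C * L * E * (a ^ 2 * L ^ 2) = (48 * C * a ^ 2 * L ^ 3 * E) / 2 := by ring
      rw [e2]
      linarith
    have hpart2 : 8 * (C * L / T) * Hs (j' ^ (2 * Q)) (b j) (b (j + 1)) ≤
        (ε / 2) * (1 / (a ^ 2 * L ^ 2)) := by
      calc 8 * (C * L / T) * Hs (j' ^ (2 * Q)) (b j) (b (j + 1))
          ≤ 8 * (C * L / T) * (s' * T / L ^ 3) := mul_le_mul_of_nonneg_left hHs (by positivity)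
        _ = (16 * C * a ^ 2 * s') / 2 * (1 / (a ^ 2 * L ^ 2)) := by field_simp; ring
        _ ≤ (ε / 2) * (1 / (a ^ 2 * L ^ 2)) := by
            apply mul_le_mul_of_nonneg_right _ (by positivity)
            linarith
    calc 8 * (C * Real.log j / T) * (3 * kp Q j' * v ^ (3 * Q + 1) +
          Hs (j' ^ (2 * Q)) (b j) (b (j + 1)))
        = 8 * (C * L / T) * (3 * kp Q j' * v ^ (3 * Q + 1)) +
          8 * (C * L / T) * Hs (j' ^ (2 * Q)) (b j) (b (j + 1)) := by rw [← hLd]; ring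
      _ ≤ (ε / 2) * (1 / (a ^ 2 * L ^ 2)) + (ε / 2) * (1 / (a ^ 2 * L ^ 2)) := add_le_add hpart1 hpart2
      _ = ε * (1 / (a ^ 2 * L ^ 2)) := by ring
      _ ≤ ε * gw p := mul_le_mul_of_nonneg_left hgw hε.le
  · refine hHT.trans ?_
    rw [Nat.card_Ioc, Nat.cast_sub hb1.le, hT]
    exact hb8

end Pool.Agent.Y937.PG.Sml
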