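import Pool.Agent.W406.PX.Stmts

/-!
# Products of `k` error terms of the Selberg class: statements

Generalisation of the project PX (`Pool.Agent.W406.PX.Stmts`, by helper406 and the helpers named there) from the two
systems `Q = q`, `Q = 2 q` with one common alternating forcing to all systems `Q ≥ q` and to forcings with three
different patterns of signs.
-/

set_option autoImplicit false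

open Finset MeasureTheory

namespace Pool.Agent.Y937.PG

open Pool.Agent.W406.PX
open Pool.Agent.H96R3.BC (vv cf NN TaskLagA)
open Pool.Agent.H394R3.BC (Ker)

/-- nodes of the boundaries, all `Q ≥ q` -/
def GeomG : Prop := ∃ q₀ : ℕ, ∀ q : ℕ, q₀ ≤ q → ∀ Q : ℕ, q ≤ Q → ∀ m : ℕ, 1 ≤ m → ∃ C : ℝ, 1 ≤ C ∧
  ∃ J₀ : ℕ, ∀ j₁ j' : ℕ, J₀ ≤ j' → j' ^ (2 * Q) = j₁ ^ (2 * q) → ∀ b : ℕ → ℕ, Bdy q j₁ b →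
    j' ≤ j₁ ∧ (1 ≤ vv Q j' (b j₁) ∧ vv Q j' (b j₁) ≤ 1 + C / j₁) ∧ ∀ j, j₁ ≤ j →
      b j < b (j + 1) ∧ vv Q j' (b j) < vv Q j' (b (j + 1)) ∧
      vv Q j' (b (j + m)) - vv Q j' (b j) ≤ C * vv Q j' (b j) / j ∧
      vv Q j' (b (j + m)) ≤ 2 * vv Q j' (b j) ∧
      vv Q j' (b j) ^ 2 ≤ 2 * (j : ℝ) / j₁ ∧ vv Q j' (b j) ^ (2 * Q) ≤ (2 * (j : ℝ) / j₁) ^ q ∧
      (b (j + m) : ℝ) - b j ≤ C * (j : ℝ) ^ (2 * q - 1) ∧ (j : ℝ) ^ (2 * q - 1) ≤ (b (j + 1) : ℝ) - b j ∧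
      (b (j + 1) : ℝ) ≤ (j : ℝ) ^ (2 * q + 1)

/-- the boundaries in the coordinate `vv Q j'` -/
def Geom2G : Prop := ∀ q : ℕ, 1 ≤ q → ∀ Q : ℕ, 1 ≤ Q → ∀ m : ℕ, 1 ≤ m → ∃ J₀ : ℕ, ∀ j₁ j' : ℕ, 1 ≤ j' → J₀ ≤ j₁ →
  ∀ b : ℕ → ℕ, Bdy q j₁ b → ∀ j : ℕ, j₁ ≤ j → ∃ h : ℝ, 0 < h ∧ ∀ i < m,
    h ≤ vv Q j' (b (j + i + 1)) - vv Q j' (b (j + i)) ∧
    vv Q j' (b (j + i + 1)) - vv Q j' (b (j + i)) ≤ 2 * h ∧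
    ∀ u : ℝ, vv Q j' (b (j + i)) + h / 4 ≤ u → u ≤ vv Q j' (b (j + i + 1)) - h / 4 →
      ∃ x : ℕ, (b (j + i) : ℝ) + ((b (j + i + 1) : ℝ) - b (j + i)) / 16 ≤ x ∧
        (x : ℝ) ≤ (b (j + i + 1) : ℝ) - ((b (j + i + 1) : ℝ) - b (j + i)) / 16 ∧
        ∀ n : ℕ, vv Q j' n ≤ u ↔ n ≤ x

/-- convergent sums -/
def SumsG : Prop := GeomG → ∃ q₀ : ℕ, ∀ q : ℕ, q₀ ≤ q → ∀ Q : ℕ, q ≤ Q → ∀ m : ℕ, 1 ≤ m →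
  ∃ J₀ : ℕ, ∀ j₁ j' : ℕ, J₀ ≤ j' → j' ^ (2 * Q) = j₁ ^ (2 * q) → ∀ b : ℕ → ℕ, Bdy q j₁ b →
    (Summable (qA Q j' (fun i => b (j₁ + i))) ∧ ∑' i, qA Q j' (fun i => b (j₁ + i)) i ≤ kp Q j' / 16) ∧
    (Summable (qB Q j' (fun i => b (j₁ + i))) ∧ ∑' i, qB Q j' (fun i => b (j₁ + i)) i ≤ kp Q j' / 16) ∧
    (Summable (rA Q j' m (fun i => b (j₁ + i))) ∧ ∑' i, rA Q j' m (fun i => b (j₁ + i)) i ≤ kp Q j' / 16) ∧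
    (Summable (rB Q j' m (fun i => b (j₁ + i))) ∧ ∑' i, rB Q j' m (fun i => b (j₁ + i)) i ≤ kp Q j' / 16)

/-- the response is small -/
def SmlG : Prop := GeomG → TaskMass → ∃ q₀ : ℕ, ∀ q : ℕ, q₀ ≤ q → ∀ Q : ℕ, q ≤ Q → ∀ C ε : ℝ, 0 < C → 0 < ε →
  ∃ J₀ : ℕ, ∀ j₁ j' : ℕ, J₀ ≤ j' → j' ^ (2 * Q) = j₁ ^ (2 * q) → ∀ b : ℕ → ℕ, Bdy q j₁ b → ∀ j, j₁ ≤ j →
    (∀ p ∈ Ioc (b j) (b (j + 1)), p.Prime →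
      8 * (C * Real.log j / (j : ℝ) ^ (2 * q - 1)) * (3 * kp Q j' * vv Q j' (b (j + 1)) ^ (3 * Q + 1) +
        Hs (j' ^ (2 * Q)) (b j) (b (j + 1))) ≤ ε * gw p) ∧
    Hs (j' ^ (2 * Q)) (b j) (b (j + 1)) ≤ ((Ioc (b j) (b (j + 1))).card : ℝ)

/-- interpolation weights on the primes of the cells -/
def WtsG : Prop := TaskLagA → TaskPr → GeomG → ∃ q₀ : ℕ, ∀ q : ℕ, q₀ ≤ q → ∀ Q : ℕ, q ≤ Q →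
  ∃ C : ℝ, 0 < C ∧ ∃ J₀ : ℕ, ∀ j₁ j' : ℕ, J₀ ≤ j' → j' ^ (2 * Q) = j₁ ^ (2 * q) → ∀ b : ℕ → ℕ, Bdy q j₁ b →
  ∃ w : ℕ → ℝ → ℝ, (∀ p, Continuous (w p)) ∧ (∀ p u, w p u ≠ 0 → p.Prime ∧ b j₁ < p) ∧
    ∀ j, j₁ ≤ j → ∀ u, vv Q j' (b j) ≤ u → u ≤ vv Q j' (b (j + 1)) →
      (∀ p ∈ Ioc (b j) (b (j + 1)), |w p u| ≤ C * Real.log j / (j : ℝ) ^ (2 * q - 1)) ∧
      ∀ P : Polynomial ℝ, P.natDegree < 4 * Q + 4 →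
        ∑ p ∈ Ioc (b j) (b (j + 1)), w p u * P.eval (vv Q j' p) = P.eval u

/-- the machine: existence of the response for every forcing, all `Q ≥ q` -/
def MachineG : Prop := ∃ q₀ : ℕ, ∀ q : ℕ, q₀ ≤ q → ∀ Q : ℕ, q ≤ Q → ∀ m : ℕ, 1 ≤ m → ∀ ε : ℝ, 0 < ε →
  ∃ J₀ : ℕ, ∀ j₁ j' : ℕ, J₀ ≤ j' → j' ^ (2 * Q) = j₁ ^ (2 * q) → ∀ b : ℕ → ℕ, Bdy q j₁ b →
  ∀ s : ℕ → ℝ, Frc q j₁ m Q j' b s → ∃ x : ℕ → ℝ, (∀ n, x n ≠ 0 → n.Prime ∧ b j₁ < n) ∧ (∀ n, |x n| ≤ ε * gw n) ∧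
    Theta Q j' (fun n => s n + x n) ∧
    ∃ C : ℝ, ∀ j : ℕ, j₁ ≤ j → |∑ n ∈ Icc 1 (b j), cf (fun n => s n + x n) n| ≤ C

/-- the three patterns of signs of the cells of a group (their product is `1`) -/
def pat (τ : Fin 3) (i : ℕ) : ℝ :=
  if τ = 0 then (-1) ^ i else if τ = 1 then (-1) ^ (i / 2) else (-1) ^ ((i + 1) / 2)

/-- the alternating null vector of the moments of nonnegative functions on adjacent intervals, lengths in `[h, l h]` -/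
def NullG : Prop := ∀ (l : ℝ), 1 ≤ l → ∀ m : ℕ, 1 ≤ m → ∀ η : ℝ, 0 < η → ∃ c₀ : ℝ, 0 < c₀ ∧
  ∀ (h M : ℝ) (a : ℕ → ℝ) (Ψ : ℕ → ℝ → ℝ), 0 < h → 0 < M →
  (∀ i < m, h ≤ a (i + 1) - a i ∧ a (i + 1) - a i ≤ l * h) →
  (∀ i < m, IntegrableOn (Ψ i) (Set.Icc (a i) (a (i + 1)))) →
  (∀ i < m, ∀ u, 0 ≤ Ψ i u) →
  (∀ i < m, ∫ u in (a i)..(a (i + 1)), Ψ i u ≤ M) →
  (∀ i < m, η * M ≤ ∫ u in (a i + h / 4)..(a (i + 1) - h / 4), Ψ i u) →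
  ∃ c : ℕ → ℝ, (∀ i < m, c₀ ≤ (-1) ^ i * c i ∧ (-1) ^ i * c i ≤ 1) ∧
    ∀ P : Polynomial ℝ, P.natDegree + 2 ≤ m → ∑ i ∈ range m, c i * ∫ u in (a i)..(a (i + 1)), Ψ i u * P.eval u = 0

/-- existence of the forcings, for all systems `Q ≥ q` and the three patterns of signs, groups of `2 r` cells -/
def ForceG : Prop := ∃ q₀ : ℕ, ∀ q : ℕ, q₀ ≤ q → ∀ Q : ℕ, q ≤ Q → ∀ r : ℕ, 4 * Q + 8 ≤ r → ∃ c₀ : ℝ, 0 < c₀ ∧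
  ∃ J₀ : ℕ, ∀ j₁ j' : ℕ, J₀ ≤ j' → j' ^ (2 * Q) = j₁ ^ (2 * q) → ∀ b : ℕ → ℕ, Bdy q j₁ b → ∀ τ : Fin 3,
    ∃ s : ℕ → ℝ, Frc q j₁ (2 * r) Q j' b s ∧
      ∀ j, j₁ ≤ j → ∀ x : ℕ, b j ≤ x → x ≤ b (j + 1) →
        c₀ * min (Gs (b j) x) (Gs x (b (j + 1))) ≤ pat τ ((j - j₁) % (2 * r)) * ∑ n ∈ Ioc (b j) x, s n

/-- `k` systems: for every `k ≥ 2`, all `Q i ≥ q₀` and both signs, the product of the summatory functions is bounded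
on one side -/
def FinG : Prop := ∃ q₀ : ℕ, ∀ (k : ℕ), 2 ≤ k → ∀ Q : Fin k → ℕ, (∀ i, q₀ ≤ Q i) → ∀ σ : ℝ, (σ = 1 ∨ σ = -1) →
  ∃ (y : Fin k → ℕ → ℝ) (j : Fin k → ℕ), (∀ i, 3 ≤ j i) ∧ (∀ i n, |y i n| ≤ 1) ∧ (∀ i, Theta (Q i) (j i) (y i)) ∧
    ∃ C : ℝ, ∀ N : ℕ, 1 ≤ N → -C ≤ σ * ∏ i, ∑ n ∈ Icc 1 N, cf (y i) n

end Pool.Agent.Y937.PG
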