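import Pool.Agent.Y937.PG.Stm
import Pool.Agent.H96R3.BC.Lag_helper568

/-! TASK WTS (helper621): interpolation weights on the primes of the cells `(b j, b (j+1)]`. -/

set_option autoImplicit false

open Finset Filter

namespace Pool.Agent.Y937.PG.Wts

open Pool.Agent.Y937.PG Pool.Agent.W406.PX
open Pool.Agent.H96R3.BC (vv cf NN TaskLagA)
open Pool.Agent.H96R3.BC.Lag568 (sepL vv_mono)

/-- separation of the nodes -/
lemma sep {Q j' A B p q : ℕ} (hQ : 1 ≤ Q) (hj' : 1 ≤ j') (hA : 1 ≤ A) (hp : A ≤ p) (hpq : p < q)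
    (hq : q ≤ B) (h2 : B ≤ 2 * A) :
    ((q : ℝ) - p) * (vv Q j' B - vv Q j' A) ≤
      2 * ((B : ℝ) - A) * (vv Q j' q - vv Q j' p) := by
  have hD : (0:ℝ) < (j' : ℝ) ^ (2 * Q) := by
    have : (0:ℝ) < j' := by exact_mod_cast hj'
    positivity
  obtain ⟨D, hDdef⟩ : ∃ D : ℝ, D = (j' : ℝ) ^ (2 * Q) := ⟨_, rfl⟩
  rw [← hDdef] at hD
  have hA0 : (0:ℝ) < A := by exact_mod_cast hA
  have hQ' : (0:ℝ) < Q := by exact_mod_cast hQ
  have hpA : (A : ℝ) ≤ p := by exact_mod_cast hp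
  have hpq' : (p : ℝ) < q := by exact_mod_cast hpq
  have hqB : (q : ℝ) ≤ B := by exact_mod_cast hq
  have h2' : (B : ℝ) ≤ 2 * A := by exact_mod_cast h2
  have key := sepL (A := (A : ℝ) / D) (p := (p : ℝ) / D) (q := (q : ℝ) / D)
    (B := (B : ℝ) / D) (s := 1 / (4 * (Q : ℝ))) (div_pos hA0 hD)
    (by gcongr) (by gcongr) (by gcongr) (by positivity)
    (by rw [div_le_one (by positivity)]
        have : (1:ℝ) ≤ Q := by exact_mod_cast hQ
        linarith)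
  have e1 : ∀ n : ℕ, ((n : ℝ) / D) ^ (1 / (4 * (Q : ℝ))) = vv Q j' n := by
    intro n; unfold vv; rw [hDdef]
  rw [e1, e1, e1, e1] at key
  have hmono : vv Q j' p ≤ vv Q j' q := vv_mono hpq.le
  have key2 : ((q : ℝ) - p) * A * (vv Q j' B - vv Q j' A) ≤
      (vv Q j' q - vv Q j' p) * ((B : ℝ) - A) * B := by
    have h3 := mul_le_mul_of_nonneg_right key (by positivity : (0:ℝ) ≤ D ^ 2)
    have e2 : ((q : ℝ) / D - p / D) * (A / D) * (vv Q j' B - vv Q j' A) * D ^ 2 =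
        ((q : ℝ) - p) * A * (vv Q j' B - vv Q j' A) := by field_simp
    have e3 : (vv Q j' q - vv Q j' p) * ((B : ℝ) / D - A / D) * (B / D) * D ^ 2 =
        (vv Q j' q - vv Q j' p) * ((B : ℝ) - A) * B := by field_simp
    rw [e2, e3] at h3
    exact h3
  have key3 : (vv Q j' q - vv Q j' p) * ((B : ℝ) - A) * B ≤
      (vv Q j' q - vv Q j' p) * ((B : ℝ) - A) * (2 * A) :=
    mul_le_mul_of_nonneg_left h2' (mul_nonneg (by linarith) (by linarith))
  have key4 : (((q : ℝ) - p) * (vv Q j' B - vv Q j' A)) * A ≤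
      (2 * ((B : ℝ) - A) * (vv Q j' q - vv Q j' p)) * A := by linarith
  exact le_of_mul_le_mul_right key4 hA0

/-- one cell -/
lemma cell (hLA : TaskLagA) {Q j' A B m Y : ℕ} {η lg L : ℝ} (hQ : 1 ≤ Q) (hj' : 1 ≤ j') (hA : 1 ≤ A)
    (h2 : B ≤ 2 * A) (hv : vv Q j' A < vv Q j' B) (hm : 1 ≤ m) (hY : 1 ≤ Y) (hlg : 0 < lg)
    (hη : 0 < η) (hYB : A + 2 * m * Y ≤ B) (hL : L = (B : ℝ) - A) (hLY : L ≤ 4 * m * Y)
    (hpr : ∀ i : ℕ, i < m → η * Y / lg ≤
      (((Ioc (A + 2 * i * Y) (A + 2 * i * Y + Y)).filter Nat.Prime).card : ℝ)) :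
    ∃ W : ℕ → ℝ → ℝ, (∀ p, Continuous (W p)) ∧ (∀ p u, W p u ≠ 0 → p.Prime) ∧
      ∀ u, vv Q j' A ≤ u → u ≤ vv Q j' B →
        (∀ p ∈ Ioc A B, |W p u| ≤ (8 * m) ^ (m - 1) * (4 * m) / η * lg / L) ∧
        ∀ P : Polynomial ℝ, P.natDegree < m →
          ∑ p ∈ Ioc A B, W p u * P.eval (vv Q j' p) = P.eval u := by
  have hY0 : (0:ℝ) < Y := by exact_mod_cast hY
  have hm0 : (0:ℝ) < m := by exact_mod_cast hm
  have hm1 : (1:ℝ) ≤ m := by exact_mod_cast hm
  have hL0 : 0 < L := by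
    have : ((A + 2 * m * Y : ℕ) : ℝ) ≤ B := by exact_mod_cast hYB
    push_cast at this
    have : 0 < 2 * (m : ℝ) * Y := by positivity
    linarith
  have hpos : ∀ i : ℕ, i < m → 0 < (((Ioc (A + 2 * i * Y) (A + 2 * i * Y + Y)).filter Nat.Prime).card : ℝ) :=
    fun i hi => lt_of_lt_of_le (by positivity) (hpr i hi)
  obtain ⟨G, hG⟩ : ∃ G : Fin m → Finset ℕ, ∀ i, G i =
      (Ioc (A + 2 * (i : ℕ) * Y) (A + 2 * (i : ℕ) * Y + Y)).filter Nat.Prime := ⟨_, fun _ => rfl⟩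
  have hGpos : ∀ i, 0 < ((G i).card : ℝ) := fun i => by rw [hG]; exact hpos i i.2
  have hGsub : ∀ i, G i ⊆ Ioc A B := by
    intro i p hp
    rw [hG, mem_filter, mem_Ioc] at hp
    have h3 : 2 * (i : ℕ) * Y + 2 * Y ≤ 2 * m * Y := by
      have : (i : ℕ) + 1 ≤ m := i.2
      nlinarith
    rw [mem_Ioc]
    constructor
    · have := hp.1.1; omega
    · have := hp.1.2; omega
  have hsep1 : ∀ i l, i < l → ∀ p ∈ G i, ∀ q ∈ G l,
      (vv Q j' B - vv Q j' A) / (8 * m) ≤ vv Q j' q - vv Q j' p := by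
    intro i l hil p hp q hq
    have h6 := mem_Ioc.1 (hGsub i hp)
    have h7 := mem_Ioc.1 (hGsub l hq)
    rw [hG, mem_filter, mem_Ioc] at hp hq
    have h3 : 2 * (i : ℕ) * Y + 2 * Y ≤ 2 * (l : ℕ) * Y := by
      have : (i : ℕ) + 1 ≤ l := hil
      nlinarith
    have h5 : p + Y ≤ q := by
      have := hp.1.2; have := hq.1.1; omega
    have h8 := sep (j' := j') hQ hj' hA h6.1.le (by omega : p < q) h7.2 h2
    have h9 : (Y : ℝ) ≤ (q : ℝ) - p := by
      have : ((p + Y : ℕ) : ℝ) ≤ q := by exact_mod_cast h5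
      push_cast at this; linarith
    have h10 : 0 < vv Q j' B - vv Q j' A := by linarith
    have h11 : 0 ≤ vv Q j' q - vv Q j' p := by
      have := vv_mono (Q := Q) (j₀ := j') (p := p) (q := q) (by omega); linarith
    rw [div_le_iff₀ (by positivity)]
    rw [← hL] at h8
    have h12 : (Y : ℝ) * (vv Q j' B - vv Q j' A) ≤
        (Y : ℝ) * ((vv Q j' q - vv Q j' p) * (8 * m)) := by
      calc (Y : ℝ) * (vv Q j' B - vv Q j' A) ≤ ((q : ℝ) - p) * (vv Q j' B - vv Q j' A) :=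
            mul_le_mul_of_nonneg_right h9 h10.le
        _ ≤ 2 * L * (vv Q j' q - vv Q j' p) := h8
        _ ≤ 2 * (4 * m * Y) * (vv Q j' q - vv Q j' p) := by gcongr
        _ = (Y : ℝ) * ((vv Q j' q - vv Q j' p) * (8 * m)) := by ring
    exact le_of_mul_le_mul_left h12 hY0
  obtain ⟨W, hW1, hW2, hW3, hW4⟩ := hLA m (vv Q j' A) (vv Q j' B) (8 * m) hm hv (by linarith) G
    (vv Q j') (fun i => by
      rw [← Finset.card_pos]; exact_mod_cast hGpos i)
    (fun i p hp => by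
      have h6 := mem_Ioc.1 (hGsub i hp)
      exact ⟨vv_mono h6.1.le, vv_mono h6.2⟩)
    (fun i l hil p hp q hq => by
      rcases lt_or_gt_of_ne hil with h | h
      · have h5 := hsep1 i l h p hp q hq
        rw [abs_sub_comm]
        exact h5.trans (le_abs_self _)
      · have h5 := hsep1 l i h q hq p hp
        exact h5.trans (le_abs_self _))
  refine ⟨W, hW1, ?_, fun u hu1 hu2 => ⟨fun p _ => ?_, fun P hP => ?_⟩⟩
  · intro p u hne
    by_contra hcon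
    apply hne
    apply hW2 p _ u
    intro i hpi
    rw [hG, mem_filter] at hpi
    exact hcon hpi.2
  · by_cases hex : ∃ i, p ∈ G i
    · obtain ⟨i, hi⟩ := hex
      refine (hW3 i p hi u hu1 hu2).trans ?_
      rw [div_le_div_iff₀ (hGpos i) hL0]
      have h5 : η * Y / lg ≤ (G i).card := by rw [hG]; exact hpr i i.2
      have h6 : (8 * (m : ℝ)) ^ (m - 1) * L ≤ (8 * (m : ℝ)) ^ (m - 1) * (4 * m * Y) :=
        mul_le_mul_of_nonneg_left hLY (by positivity)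
      have h7 : (8 * (m : ℝ)) ^ (m - 1) * (4 * m * Y) =
          (8 * (m : ℝ)) ^ (m - 1) * (4 * m) / η * lg * (η * Y / lg) := by
        field_simp
      rw [h7] at h6
      refine h6.trans ?_
      exact mul_le_mul_of_nonneg_left h5 (by positivity)
    · push Not at hex
      rw [hW2 p hex u, abs_zero]
      positivity
  · exact (hW4 (Ioc A B) hGsub).2 P hP u

theorem task : WtsG := by
  intro hLA hPr hGe
  obtain ⟨q₁, hPr⟩ := hPr
  obtain ⟨q₂, hGe⟩ := hGe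
  refine ⟨q₁ + q₂ + 1, fun q hq Q hQq => ?_⟩
  have hq1 : 1 ≤ q := by omega
  have hQ1 : 1 ≤ Q := by omega
  obtain ⟨η, hη, hPr⟩ := hPr q (by omega)
  obtain ⟨C, hC1, J₂, hGe⟩ := hGe q (by omega) Q hQq 1 le_rfl
  obtain ⟨m, hm⟩ : ∃ m, m = 4 * Q + 4 := ⟨_, rfl⟩
  have hm1 : 1 ≤ m := by omega
  have hm0 : (0:ℝ) < m := by exact_mod_cast hm1
  obtain ⟨J₁, hPr⟩ := hPr (1 / (4 * m)) (by positivity)
  refine ⟨(8 * m) ^ (m - 1) * (4 * m) / η, by positivity, J₁ + J₂ + 4 * m + ⌈C⌉₊ + 2,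
    fun j₁ j' hj' hjj b hb => ?_⟩
  obtain ⟨hjj1, -, hGe⟩ := hGe j₁ j' (by omega) hjj b hb
  have hW : ∀ j : ℕ, j₁ ≤ j → ∃ W : ℕ → ℝ → ℝ, (∀ p, Continuous (W p)) ∧
      (∀ p u, W p u ≠ 0 → p.Prime) ∧
      ∀ u, vv Q j' (b j) ≤ u → u ≤ vv Q j' (b (j + 1)) →
        (∀ p ∈ Ioc (b j) (b (j + 1)), |W p u| ≤
          (8 * m) ^ (m - 1) * (4 * m) / η * Real.log j / (j : ℝ) ^ (2 * q - 1)) ∧
        ∀ P : Polynomial ℝ, P.natDegree < m →
          ∑ p ∈ Ioc (b j) (b (j + 1)), W p u * P.eval (vv Q j' p) = P.eval u := by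
    intro j hj
    obtain ⟨g1, g2, -, -, -, -, g3, g4, -⟩ := hGe j hj
    have hj2 : 2 ≤ j := by omega
    have hj' : (2:ℝ) ≤ j := by exact_mod_cast hj2
    have hlog : 0 < Real.log j := Real.log_pos (by linarith)
    have hbj : j ^ (2 * q) ≤ b j := (hb j hj).1
    have hbj1 : b (j + 1) ≤ (j + 3) ^ (2 * q) := by
      have h1 := (hb (j + 1) (by omega)).2
      have h2 : (j + 1) ^ (2 * q) ≤ (j + 3) ^ (2 * q) := Nat.pow_le_pow_left (by omega) _
      have h3 : (j + 1 + 1) ^ (2 * q) ≤ (j + 3) ^ (2 * q) := Nat.pow_le_pow_left (by omega) _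
      omega
    have hpowj : (j : ℝ) ≤ (j : ℝ) ^ (2 * q - 1) := by
      calc (j : ℝ) = (j : ℝ) ^ 1 := (pow_one _).symm
        _ ≤ (j : ℝ) ^ (2 * q - 1) := pow_le_pow_right₀ (by linarith) (by omega)
    have hpow2 : (j : ℝ) ^ (2 * q) = (j : ℝ) ^ (2 * q - 1) * j := by
      rw [← pow_succ]; congr 1; omega
    have hCj : C ≤ j := by
      have h1 : C ≤ (⌈C⌉₊ : ℝ) := Nat.le_ceil C
      have h2 : ((⌈C⌉₊ : ℕ) : ℝ) ≤ j := by exact_mod_cast (by omega : ⌈C⌉₊ ≤ j)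
      linarith
    have hbjr : (j : ℝ) ^ (2 * q) ≤ b j := by exact_mod_cast hbj
    have h2A : b (j + 1) ≤ 2 * b j := by
      have h1 : C * (j : ℝ) ^ (2 * q - 1) ≤ (j : ℝ) ^ (2 * q) := by
        rw [hpow2, mul_comm]
        exact mul_le_mul_of_nonneg_left hCj (by positivity)
      have h2 : (b (j + 1) : ℝ) ≤ 2 * b j := by linarith
      exact_mod_cast h2
    obtain ⟨L, hL⟩ : ∃ L, L = b (j + 1) - b j := ⟨_, rfl⟩
    have hLr : (L : ℝ) = (b (j + 1) : ℝ) - b j := by rw [hL, Nat.cast_sub g1.le]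
    have hLj : (j : ℝ) ^ (2 * q - 1) ≤ L := by rw [hLr]; exact g4
    have hL4 : 4 * m ≤ L := by
      have h1 : ((4 * m : ℕ) : ℝ) ≤ j := by exact_mod_cast (by omega : 4 * m ≤ j)
      have h2 : ((4 * m : ℕ) : ℝ) ≤ L := by linarith
      exact_mod_cast h2
    obtain ⟨Y, hY⟩ : ∃ Y, Y = L / (2 * m) := ⟨_, rfl⟩
    have hY1 : 2 * m * Y ≤ L := by rw [hY]; exact Nat.mul_div_le L (2 * m)
    have hY2 : L < 2 * m * (Y + 1) := by
      rw [hY]; exact Nat.lt_mul_div_succ L (by omega)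
    have hY3 : 2 ≤ Y := by
      rw [hY, Nat.le_div_iff_mul_le (by omega)]; omega
    have hY4 : L ≤ 4 * m * Y := by nlinarith
    have hY4r : (L : ℝ) ≤ 4 * m * Y := by exact_mod_cast hY4
    have hc := cell hLA (Q := Q) (j' := j') (A := b j) (B := b (j + 1)) (m := m) (Y := Y) (η := η)
      (lg := Real.log j) (L := L) hQ1 (by omega)
      (by have : 1 ≤ j ^ (2 * q) := Nat.one_le_pow _ _ (by omega)
          omega) h2A g2 hm1 (by omega) hlog hη (by omega) hLr hY4r (fun i hi => by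
        have h3 : 2 * i * Y + 2 * Y ≤ 2 * m * Y := by nlinarith
        have h4 := (hPr j (by omega) (b j + 2 * i * Y) (b j + 2 * i * Y + Y) (by omega) (by omega)
          (by
            push_cast
            have h5 : (1:ℝ) / (4 * m) * (j : ℝ) ^ (2 * q - 1) ≤ 1 / (4 * m) * (4 * m * Y) :=
              mul_le_mul_of_nonneg_left (hLj.trans hY4r) (by positivity)
            have h6 : (1:ℝ) / (4 * m) * (4 * m * Y) = Y := by field_simp
            linarith)).2.2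
        refine le_trans (le_of_eq ?_) h4
        push_cast
        ring)
    obtain ⟨W, hW1, hW2, hW3⟩ := hc
    refine ⟨W, hW1, hW2, fun u hu1 hu2 => ⟨fun p hp => ((hW3 u hu1 hu2).1 p hp).trans ?_,
      (hW3 u hu1 hu2).2⟩⟩
    exact div_le_div_of_nonneg_left (by positivity) (by positivity) hLj
  choose! W hW1 hW2 hW3 using hW
  classical
  have hmono : ∀ j l : ℕ, j₁ ≤ j → j ≤ l → b j ≤ b l := by
    intro j l hj hl
    induction l, hl using Nat.le_induction with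
    | base => exact le_rfl
    | succ l hl ih => exact ih.trans (hGe l (by omega)).1.le
  have huniq : ∀ j l p : ℕ, j₁ ≤ j → j₁ ≤ l → p ∈ Ioc (b j) (b (j + 1)) →
      p ∈ Ioc (b l) (b (l + 1)) → j = l := by
    intro j l p hj hl h1 h2
    rw [mem_Ioc] at h1 h2
    by_contra hne
    rcases Nat.lt_or_gt_of_ne hne with h | h
    · have := hmono (j + 1) l (by omega) h
      omega
    · have := hmono (l + 1) j (by omega) h
      omega
  let w : ℕ → ℝ → ℝ := fun p =>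
    if h : ∃ j, j₁ ≤ j ∧ p ∈ Ioc (b j) (b (j + 1)) then W h.choose p else fun _ => 0
  have hw : ∀ j, j₁ ≤ j → ∀ p ∈ Ioc (b j) (b (j + 1)), w p = W j p := by
    intro j hj p hp
    have h : ∃ j, j₁ ≤ j ∧ p ∈ Ioc (b j) (b (j + 1)) := ⟨j, hj, hp⟩
    have e : h.choose = j := huniq _ _ p h.choose_spec.1 hj h.choose_spec.2 hp
    simp only [w, dif_pos h, e]
  refine ⟨w, ?_, ?_, ?_⟩
  · intro p
    by_cases h : ∃ j, j₁ ≤ j ∧ p ∈ Ioc (b j) (b (j + 1))
    · obtain ⟨j, hj, hp⟩ := h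
      rw [hw j hj p hp]; exact hW1 j hj p
    · simp only [w, dif_neg h]; exact continuous_const
  · intro p u hne
    by_cases h : ∃ j, j₁ ≤ j ∧ p ∈ Ioc (b j) (b (j + 1))
    · obtain ⟨j, hj, hp⟩ := h
      rw [hw j hj p hp] at hne
      refine ⟨hW2 j hj p u hne, ?_⟩
      exact lt_of_le_of_lt (hmono j₁ j le_rfl hj) (mem_Ioc.1 hp).1
    · simp only [w, dif_neg h] at hne
      exact absurd rfl hne
  · intro j hj u hu1 hu2
    refine ⟨fun p hp => ?_, fun P hP => ?_⟩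
    · rw [hw j hj p hp]; exact (hW3 j hj u hu1 hu2).1 p hp
    · rw [sum_congr rfl (fun p hp => by rw [hw j hj p hp])]
      exact (hW3 j hj u hu1 hu2).2 P (by omega)

end Pool.Agent.Y937.PG.Wts
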