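import Pool.Agent.Y937.PG.Geom
import Pool.Agent.Y937.PG.Geom2
import Pool.Agent.Y937.PG.Sums
import Pool.Agent.Y937.PG.Sml
import Pool.Agent.Y937.PG.Wts
import Pool.Agent.Y937.PG.Asm
import Pool.Agent.Y937.PG.Null
import Pool.Agent.Y937.PG.Force
import Pool.Agent.Y937.PG.Fin
import Pool.Agent.Y937.PG.End
import Pool.Agent.W406.PX.Main

/-!
# Products of `k` error terms: everything together
-/

set_option autoImplicit false

namespace Pool.Agent.Y937.PG

open Pool.Agent.W406.PX

theorem strongG : End.StrongG := by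
  have hMass : TaskMass := Pool.Agent.W199.PX.task
  have hPr : TaskPr := Pool.Agent.W991.PX.task
  have hG : GeomG := Geom.task
  have hMss : TaskMss := Pool.Agent.W918.PX.task
  have hBlz : Blz := Pool.Agent.W978.PX.task Mom.task hMss
  have hFlz : Flz := Pool.Agent.W748.PX.FlzT.task hBlz Pool.Agent.W721.PX.Fst.task
  have hGood : Good := Pool.Agent.W880.PX.Good.task hMass hPr Pool.Agent.W486.PX.Max.task
  have hForce : ForceG := Force.task hPr Null.task Pool.Agent.W140.PX.task hG Geom2.task
  have hM : MachineG := Asm.machine Mom.task hMss hBlz hFlz Pool.Agent.W571.PX.Lin.task Pool.Agent.W414.PX.task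
    Pool.Agent.W748.PX.task Pool.Agent.W589.PX.task Pool.Agent.W721.PX.Bdd.task hG Sums.task Sml.task hMass
    Pool.Agent.H195R3.BC.lagA hPr Wts.task
  exact End.strong_of (Pool.Agent.Y937.PG.Fin.task hGood hForce hM)

end Pool.Agent.Y937.PG
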