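import Pool.Agent.Y937.PG.Stm
import Pool.Agent.W573.PX.Forcea

/-!
# Blocks of cells: gluing, partial sums, null vectors
-/

set_option autoImplicit false

open Finset MeasureTheory

namespace Pool.Agent.Y937.PG.Blk

open Pool.Agent.Y937.PG Pool.Agent.W406.PX
open Pool.Agent.H96R3.BC (vv)
open Pool.Agent.W573.PX (Ps ps_int initial ps_at cell_unique Gs_nonneg gw_nonneg mom_cell)

/-- the functions of the cells glued together, with coefficients -/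
theorem glue (j₁ : ℕ) (b : ℕ → ℕ) (hbm : ∀ j, j₁ ≤ j → b j < b (j + 1)) (ψ : ℕ → ℕ → ℝ) (κ : ℕ → ℝ) :
    ∃ s : ℕ → ℝ, (∀ j n, j₁ ≤ j → n ∈ Ioc (b j) (b (j + 1)) → s n = κ j * ψ j n) ∧
      ∀ n, s n = 0 ∨ ∃ j, j₁ ≤ j ∧ n ∈ Ioc (b j) (b (j + 1)) ∧ s n = κ j * ψ j n := by
  classical
  refine ⟨fun n => if h : ∃ j, j₁ ≤ j ∧ n ∈ Ioc (b j) (b (j + 1)) then
    κ (Classical.choose h) * ψ (Classical.choose h) n else 0, ?_, ?_⟩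
  · intro j n hj hn
    have h : ∃ j, j₁ ≤ j ∧ n ∈ Ioc (b j) (b (j + 1)) := ⟨j, hj, hn⟩
    have h5 := Classical.choose_spec h
    have h6 : Classical.choose h = j := cell_unique b j₁ hbm h5.1 hj h5.2 hn
    simp only
    rw [dif_pos h, h6]
  · intro n
    by_cases h : ∃ j, j₁ ≤ j ∧ n ∈ Ioc (b j) (b (j + 1))
    · right
      obtain ⟨j, hj, hn⟩ := h
      refine ⟨j, hj, hn, ?_⟩
      have h : ∃ j, j₁ ≤ j ∧ n ∈ Ioc (b j) (b (j + 1)) := ⟨j, hj, hn⟩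
      have h5 := Classical.choose_spec h
      have h6 : Classical.choose h = j := cell_unique b j₁ hbm h5.1 hj h5.2 hn
      simp only
      rw [dif_pos h, h6]
    · left
      simp only
      rw [dif_neg h]

theorem b_le {j₁ : ℕ} {b : ℕ → ℕ} (hbm : ∀ j, j₁ ≤ j → b j < b (j + 1)) {j j' : ℕ} (hj : j₁ ≤ j) (h : j ≤ j') :
    b j ≤ b j' := by
  induction j', h using Nat.le_induction with
  | base => exact le_rfl
  | succ j' hj' ih => exact ih.trans (hbm j' (by omega)).le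

/-- the cell of an integer -/
theorem locate {b : ℕ → ℕ} {J₁ J₂ x : ℕ} (h : J₁ < J₂) (h1 : b J₁ ≤ x) (h2 : x ≤ b J₂) :
    ∃ j, J₁ ≤ j ∧ j < J₂ ∧ b j ≤ x ∧ x ≤ b (j + 1) := by
  induction J₂, h using Nat.le_induction with
  | base => exact ⟨J₁, le_rfl, Nat.lt_succ_self _, h1, h2⟩
  | succ J₂ hJ ih =>
    by_cases hx : x ≤ b J₂
    · obtain ⟨j, e1, e2, e3, e4⟩ := ih hx
      exact ⟨j, e1, by omega, e3, e4⟩
    · exact ⟨J₂, by omega, by omega, by omega, h2⟩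

section
variable {j₁ : ℕ} {b : ℕ → ℕ} (hbm : ∀ j, j₁ ≤ j → b j < b (j + 1)) {φ : ℕ → ℝ} {ψ : ℕ → ℕ → ℝ}
  (hφ : ∀ j n, j₁ ≤ j → n ∈ Ioc (b j) (b (j + 1)) → φ n = ψ j n)
  (h0 : ∀ j, j₁ ≤ j → ∑ n ∈ Ioc (b j) (b (j + 1)), ψ j n = 0)

include hφ in
theorem part1 {j x : ℕ} (hj : j₁ ≤ j) (hx : x ≤ b (j + 1)) :
    ∑ n ∈ Ioc (b j) x, φ n = ∑ n ∈ Ioc (b j) x, ψ j n :=
  Finset.sum_congr rfl fun n hn => hφ j n hj (Finset.mem_Ioc.2 ⟨(Finset.mem_Ioc.1 hn).1,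
    (Finset.mem_Ioc.1 hn).2.trans hx⟩)

include hbm hφ h0 in
theorem zero_sum {j j' : ℕ} (hj : j₁ ≤ j) (h : j ≤ j') : ∑ n ∈ Ioc (b j) (b j'), φ n = 0 := by
  induction j', h using Nat.le_induction with
  | base => simp
  | succ j' hj' ih =>
    rw [← Finset.sum_Ioc_consecutive φ (b_le hbm hj hj') (hbm j' (by omega)).le, ih, zero_add,
      part1 hφ (by omega) le_rfl, h0 j' (by omega)]

include hbm hφ h0 in
/-- partial sums from an earlier boundary -/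
theorem part2 {j j' x : ℕ} (hj : j₁ ≤ j) (h : j ≤ j') (h1 : b j' ≤ x) (h2 : x ≤ b (j' + 1)) :
    ∑ n ∈ Ioc (b j) x, φ n = ∑ n ∈ Ioc (b j') x, ψ j' n := by
  rw [← Finset.sum_Ioc_consecutive φ (b_le hbm hj h) h1, zero_sum hbm hφ h0 hj h, zero_add,
    part1 hφ (by omega) h2]

include hbm hφ h0 in
theorem ps_bounds {v : ℕ → ℝ} (hv : Monotone v) {J₁ J₂ : ℕ} (hJ : j₁ ≤ J₁) (hJJ : J₁ < J₂) {UB : ℝ}
    (hpos : ∀ j, J₁ ≤ j → j < J₂ → ∀ x, b j ≤ x → x ≤ b (j + 1) → 0 ≤ ∑ n ∈ Ioc (b j) x, ψ j n)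
    (hup : ∀ j, J₁ ≤ j → j < J₂ → ∀ x, b j ≤ x → x ≤ b (j + 1) → ∑ n ∈ Ioc (b j) x, ψ j n ≤ UB) (u : ℝ) :
    0 ≤ Ps v (b J₁) (b J₂) φ u ∧ Ps v (b J₁) (b J₂) φ u ≤ UB := by
  obtain ⟨x, h1, h2, h3⟩ := initial v hv u (b J₁) (b J₂) (b_le hbm hJ hJJ.le)
  unfold Ps
  rw [h3]
  obtain ⟨j, e1, e2, e3, e4⟩ := locate hJJ h1 h2
  rw [part2 hbm hφ h0 hJ e1 e3 e4]
  exact ⟨hpos j e1 e2 x e3 e4, hup j e1 e2 x e3 e4⟩

include hbm hφ h0 in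
theorem ps_low {v : ℕ → ℝ} (hv : Monotone v) {J₁ J₂ : ℕ} (hJ : j₁ ≤ J₁) (hJJ : J₁ < J₂) {h LB : ℝ} (hh : 0 < h)
    (hLB : 0 ≤ LB)
    (hpos : ∀ j, J₁ ≤ j → j < J₂ → ∀ x, b j ≤ x → x ≤ b (j + 1) → 0 ≤ ∑ n ∈ Ioc (b j) x, ψ j n)
    (hlen : h ≤ v (b (J₁ + 1)) - v (b J₁))
    (hlow : ∀ u : ℝ, v (b J₁) + h / 4 ≤ u → u ≤ v (b (J₁ + 1)) - h / 4 →
      ∃ x : ℕ, b J₁ ≤ x ∧ x ≤ b (J₁ + 1) ∧ (∀ n : ℕ, v n ≤ u ↔ n ≤ x) ∧ LB ≤ ∑ n ∈ Ioc (b J₁) x, ψ J₁ n) :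
    h / 2 * LB ≤ ∫ u in (v (b J₁) + h / 4)..(v (b J₂) - h / 4), Ps v (b J₁) (b J₂) φ u := by
  have hint : ∀ a c : ℝ, IntervalIntegrable (Ps v (b J₁) (b J₂) φ) volume a c := fun a c =>
    ps_int v (b J₁) (b J₂) φ a c
  have hbb : b (J₁ + 1) ≤ b J₂ := b_le hbm (by omega) hJJ
  have hvb : v (b (J₁ + 1)) ≤ v (b J₂) := hv hbb
  have hP : ∀ u, 0 ≤ Ps v (b J₁) (b J₂) φ u := by
    intro u
    obtain ⟨x, h1, h2, h3⟩ := initial v hv u (b J₁) (b J₂) (b_le hbm hJ hJJ.le)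
    unfold Ps
    rw [h3]
    obtain ⟨j, e1, e2, e3, e4⟩ := locate hJJ h1 h2
    rw [part2 hbm hφ h0 hJ e1 e3 e4]
    exact hpos j e1 e2 x e3 e4
  rw [← intervalIntegral.integral_add_adjacent_intervals (hint _ (v (b (J₁ + 1)) - h / 4)) (hint _ _)]
  have i2 : 0 ≤ ∫ u in (v (b (J₁ + 1)) - h / 4)..(v (b J₂) - h / 4), Ps v (b J₁) (b J₂) φ u :=
    intervalIntegral.integral_nonneg (by linarith) fun u _ => hP u
  have h1 : v (b J₁) + h / 4 ≤ v (b (J₁ + 1)) - h / 4 := by linarith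
  have h2 : ∀ u ∈ Set.Icc (v (b J₁) + h / 4) (v (b (J₁ + 1)) - h / 4), LB ≤ Ps v (b J₁) (b J₂) φ u := by
    intro u hu
    obtain ⟨x, x1, x2, x3, x4⟩ := hlow u hu.1 hu.2
    rw [ps_at φ u x x1 (x2.trans hbb) x3, part1 hφ hJ x2]
    exact x4
  have h3 := intervalIntegral.integral_mono_on h1 (f := fun _ => LB)
    (g := Ps v (b J₁) (b J₂) φ) intervalIntegrable_const (hint _ _) h2
  rw [intervalIntegral.integral_const, smul_eq_mul] at h3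
  have h4 : h / 2 ≤ v (b (J₁ + 1)) - h / 4 - (v (b J₁) + h / 4) := by linarith
  have h5 : h / 2 * LB ≤ (v (b (J₁ + 1)) - h / 4 - (v (b J₁) + h / 4)) * LB :=
    mul_le_mul_of_nonneg_right h4 hLB
  linarith

end

/-- null vector of the blocks -/
theorem blocks (hNull : NullG) (N : ℕ) (hN : 1 ≤ N) (κ : ℝ) (hκ : 0 < κ) : ∃ c₀ : ℝ, 0 < c₀ ∧
    ∀ (v : ℕ → ℝ) (B : ℕ → ℕ) (φ : ℕ → ℝ) (h LB UB : ℝ), 0 < h → 0 < UB →
    κ * (4 * UB) ≤ LB / 2 →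
    (∀ i < N, h ≤ v (B (i + 1)) - v (B i) ∧ v (B (i + 1)) - v (B i) ≤ 4 * h) →
    (∀ i < N, ∀ u, 0 ≤ Ps v (B i) (B (i + 1)) φ u ∧ Ps v (B i) (B (i + 1)) φ u ≤ UB) →
    (∀ i < N, h / 2 * LB ≤ ∫ u in (v (B i) + h / 4)..(v (B (i + 1)) - h / 4), Ps v (B i) (B (i + 1)) φ u) →
    ∃ c : ℕ → ℝ, (∀ i < N, c₀ ≤ (-1) ^ i * c i ∧ (-1) ^ i * c i ≤ 1) ∧
      ∀ P : Polynomial ℝ, P.natDegree + 2 ≤ N →
        ∑ i ∈ range N, c i * ∫ u in (v (B i))..(v (B (i + 1))), Ps v (B i) (B (i + 1)) φ u * P.eval u = 0 := by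
  obtain ⟨c₀, hc₀, H⟩ := hNull 4 (by norm_num) N hN κ hκ
  refine ⟨c₀, hc₀, ?_⟩
  intro v B φ h LB UB hh hUB hκL hlen hps hlow
  refine H h (4 * h * UB) (fun i => v (B i)) (fun i => Ps v (B i) (B (i + 1)) φ) hh (by positivity) hlen
    ?_ (fun i hi u => (hps i hi u).1) ?_ ?_
  · intro i hi
    have h1 : v (B i) ≤ v (B (i + 1)) := by have := (hlen i hi).1; linarith
    exact (intervalIntegrable_iff_integrableOn_Icc_of_le h1).1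
      (ps_int v (B i) (B (i + 1)) φ (v (B i)) (v (B (i + 1))))
  · intro i hi
    have h1 : v (B i) ≤ v (B (i + 1)) := by have := (hlen i hi).1; linarith
    have h2 := intervalIntegral.norm_integral_le_of_norm_le_const
      (a := v (B i)) (b := v (B (i + 1)))
      (f := Ps v (B i) (B (i + 1)) φ) (C := UB)
      (fun u _ => by
        rw [Real.norm_eq_abs, abs_of_nonneg (hps i hi u).1]
        exact (hps i hi u).2)
    have h3 : |v (B (i + 1)) - v (B i)| ≤ 4 * h := by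
      rw [abs_of_nonneg (by linarith)]; exact (hlen i hi).2
    calc _ ≤ _ := (Real.le_norm_self _).trans h2
      _ ≤ UB * (4 * h) := by gcongr
      _ = _ := by ring
  · intro i hi
    refine le_trans ?_ (hlow i hi)
    have : κ * (4 * h * UB) = κ * (4 * UB) * h := by ring
    rw [this]
    nlinarith

end Pool.Agent.Y937.PG.Blk
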